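import Pool.Agent.helper75.S6D.Spec

set_option autoImplicit false

noncomputable section

namespace Pool.Agent.S6D

theorem trl_sum (D1 D2 : ℝ) (n : ℕ) :
    ∑ j ∈ Finset.range n, (D1 * ((n : ℝ) - 1 - j) + D2 * j) = (D1 + D2) * ((n : ℝ) * (n - 1)) / 2 := by
  have h1 : ∀ m : ℕ, ∑ j ∈ Finset.range m, (j : ℝ) = (m : ℝ) * (m - 1) / 2 := by
    intro m
    induction m with
    | zero => simp
    | succ k ih => rw [Finset.sum_range_succ, ih]; push_cast; ring
  rw [Finset.sum_add_distrib, ← Finset.mul_sum, ← Finset.mul_sum, h1, Finset.sum_sub_distrib, h1]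
  simp
  ring

theorem TRL : TRL_stmt := by
  intro p q hpq hp hq
  obtain ⟨a1, l1, h1⟩ := p
  obtain ⟨a2, l2, h2⟩ := q
  simp only at hpq hp hq
  have hW : (0 : ℝ) < (a2 : ℝ) - a1 := by
    have : (a1 : ℝ) < a2 := by exact_mod_cast hpq
    linarith
  have hD1 : (0 : ℝ) ≤ (h1 : ℝ) - l1 := by
    have : (l1 : ℝ) ≤ h1 := by exact_mod_cast hp
    linarith
  have hD2 : (0 : ℝ) ≤ (h2 : ℝ) - l2 := by
    have : (l2 : ℝ) ≤ h2 := by exact_mod_cast hq
    linarith
  set W : ℝ := (a2 : ℝ) - a1 with hWdef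
  set D1 : ℝ := (h1 : ℝ) - l1 with hD1def
  set D2 : ℝ := (h2 : ℝ) - l2 with hD2def
  refine ⟨3 / 2 * (D1 + D2) / 65537 + W / 65537 + 1, ?_⟩
  intro A hA
  have hA0 : (0 : ℝ) < (A : ℝ) := by exact_mod_cast hA
  have hA1 : (1 : ℝ) ≤ (A : ℝ) := by exact_mod_cast hA
  set B1 : ℤ := ⌈(a1 : ℝ) * A / 65537⌉ with hB1
  set B2 : ℤ := ⌈(a2 : ℝ) * A / 65537⌉ with hB2
  have hB1a : (a1 : ℝ) * A / 65537 ≤ B1 := Int.le_ceil _
  have hB1b : (B1 : ℝ) < (a1 : ℝ) * A / 65537 + 1 := Int.ceil_lt_add_one _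
  have hB2a : (a2 : ℝ) * A / 65537 ≤ B2 := Int.le_ceil _
  have hB2b : (B2 : ℝ) < (a2 : ℝ) * A / 65537 + 1 := Int.ceil_lt_add_one _
  have hB12 : B1 ≤ B2 := by
    apply Int.ceil_mono
    have : (a1 : ℝ) < a2 := by exact_mod_cast hpq
    have h2 : (a1 : ℝ) * A ≤ a2 * A := by nlinarith
    linarith
  obtain ⟨n, hn⟩ : ∃ n : ℕ, B2 = B1 + n := ⟨(B2 - B1).toNat, by omega⟩
  have hnR : (B2 : ℝ) = B1 + n := by rw [hn]; push_cast; ring
  set lo : ℤ → ℝ := fun b => ((l1 : ℝ) * (a2 * A - 65537 * b) + l2 * (65537 * b - a1 * A)) / (65537 * W) with hlo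
  set hi : ℤ → ℝ := fun b => ((h1 : ℝ) * (a2 * A - 65537 * b) + h2 * (65537 * b - a1 * A)) / (65537 * W) with hhi
  set G : ℕ → Finset (ℤ × ℤ) := fun j => (Finset.Icc ⌈lo (B1 + j)⌉ ⌊hi (B1 + j)⌋).map
    ⟨fun c => (B1 + j, c), fun c c' h => by simpa using h⟩ with hG
  have hdisj : Set.PairwiseDisjoint (↑(Finset.range n) : Set ℕ) G := by
    intro i _ j _ hij
    rw [Function.onFun, Finset.disjoint_left]
    intro z hz hz'
    simp only [hG, Finset.mem_map, Function.Embedding.coeFn_mk] at hz hz'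
    obtain ⟨c, _, rfl⟩ := hz
    obtain ⟨c', _, h⟩ := hz'
    rw [Prod.mk.injEq] at h
    apply hij
    have := h.1
    omega
  refine ⟨(Finset.range n).disjiUnion G hdisj, ?_, ?_⟩
  · intro z hz
    rw [Finset.mem_disjiUnion] at hz
    obtain ⟨j, hj, hz⟩ := hz
    simp only [hG, Finset.mem_map, Function.Embedding.coeFn_mk] at hz
    obtain ⟨c, hc, rfl⟩ := hz
    rw [Finset.mem_Icc] at hc
    have hj' : (j : ℝ) + 1 ≤ n := by
      have := Finset.mem_range.mp hj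
      exact_mod_cast this
    have hc1 : lo (B1 + j) ≤ c := (Int.ceil_le.mp hc.1)
    have hc2 : (c : ℝ) ≤ hi (B1 + j) := (Int.le_floor.mp hc.2)
    simp only [hlo] at hc1
    simp only [hhi] at hc2
    have hNW : (0 : ℝ) < 65537 * W := by positivity
    rw [div_le_iff₀ hNW] at hc1
    rw [le_div_iff₀ hNW] at hc2
    have hb1 : (a1 : ℝ) * A ≤ 65537 * ((B1 + j : ℤ) : ℝ) := by
      push_cast
      rw [div_le_iff₀ (by norm_num)] at hB1a
      have : (0 : ℝ) ≤ j := Nat.cast_nonneg j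
      linarith
    have hb2 : 65537 * ((B1 + j : ℤ) : ℝ) < (a2 : ℝ) * A := by
      push_cast
      have h3 : (B2 : ℝ) - 1 < (a2 : ℝ) * A / 65537 := by linarith
      rw [lt_div_iff₀ (by norm_num)] at h3
      rw [hnR] at h3
      linarith
    generalize (B1 + (j : ℤ) : ℤ) = b at *
    show (a1 : ℝ) ≤ 65537 * ((b : ℝ) / A) ∧ 65537 * ((b : ℝ) / A) < a2 ∧
      (l1 : ℝ) * (a2 - 65537 * ((b : ℝ) / A)) + l2 * (65537 * ((b : ℝ) / A) - a1) ≤ 65537 * ((c : ℝ) / A) * (a2 - a1) ∧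
      65537 * ((c : ℝ) / A) * (a2 - a1) ≤ (h1 : ℝ) * (a2 - 65537 * ((b : ℝ) / A)) + h2 * (65537 * ((b : ℝ) / A) - a1)
    refine ⟨?_, ?_, ?_, ?_⟩
    · rw [mul_div_assoc', le_div_iff₀ hA0]; linarith
    · rw [mul_div_assoc', div_lt_iff₀ hA0]; linarith
    · have e1 : (l1 : ℝ) * (a2 - 65537 * ((b : ℝ) / A)) + l2 * (65537 * ((b : ℝ) / A) - a1)
        = ((l1 : ℝ) * (a2 * A - 65537 * b) + l2 * (65537 * b - a1 * A)) / A := by field_simp
      have e2 : 65537 * ((c : ℝ) / A) * (a2 - a1) = (c * (65537 * W)) / A := by rw [hWdef]; field_simp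
      rw [e1, e2]
      exact div_le_div_of_nonneg_right hc1 hA0.le
    · have e1 : (h1 : ℝ) * (a2 - 65537 * ((b : ℝ) / A)) + h2 * (65537 * ((b : ℝ) / A) - a1)
        = ((h1 : ℝ) * (a2 * A - 65537 * b) + h2 * (65537 * b - a1 * A)) / A := by field_simp
      have e2 : 65537 * ((c : ℝ) / A) * (a2 - a1) = (c * (65537 * W)) / A := by rw [hWdef]; field_simp
      rw [e1, e2]
      exact div_le_div_of_nonneg_right hc2 hA0.le
  · rw [Finset.card_disjiUnion]
    have key : ∀ j ∈ Finset.range n, (D1 * ((n : ℝ) - 1 - j) + D2 * j) / W - 1 ≤ ((G j).card : ℝ) := by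
      intro j hj
      have hj0 : (0 : ℝ) ≤ j := Nat.cast_nonneg j
      simp only [hG, Finset.card_map, Int.card_Icc]
      have h5 : ((⌊hi (B1 + j)⌋ + 1 - ⌈lo (B1 + j)⌉ : ℤ) : ℝ) ≤ ((⌊hi (B1 + j)⌋ + 1 - ⌈lo (B1 + j)⌉).toNat : ℝ) := by
        exact_mod_cast Int.self_le_toNat _
      refine le_trans ?_ h5
      push_cast
      have h6 : hi (B1 + j) < ⌊hi (B1 + j)⌋ + 1 := Int.lt_floor_add_one _
      have h7 : (⌈lo (B1 + j)⌉ : ℝ) < lo (B1 + j) + 1 := Int.ceil_lt_add_one _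
      have h8 : hi (B1 + j) - lo (B1 + j) = (D1 * ((a2 : ℝ) * A - 65537 * (B1 + j)) + D2 * (65537 * (B1 + j) - a1 * A)) / (65537 * W) := by
        simp only [hhi, hlo, hD1def, hD2def]
        push_cast
        ring
      have h9 : (D1 * ((n : ℝ) - 1 - j) + D2 * j) / W ≤ (D1 * ((a2 : ℝ) * A - 65537 * (B1 + j)) + D2 * (65537 * (B1 + j) - a1 * A)) / (65537 * W) := by
        rw [div_le_div_iff₀ hW (by positivity)]
        have i1 : 65537 * ((n : ℝ) - 1 - j) ≤ (a2 : ℝ) * A - 65537 * (B1 + j) := by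
          have h3 : (B2 : ℝ) - 1 < (a2 : ℝ) * A / 65537 := by linarith
          rw [lt_div_iff₀ (by norm_num), hnR] at h3
          linarith
        have i2 : 65537 * (j : ℝ) ≤ 65537 * (B1 + j) - a1 * A := by
          rw [div_le_iff₀ (by norm_num)] at hB1a
          linarith
        have i3 := mul_le_mul_of_nonneg_left i1 hD1
        have i4 := mul_le_mul_of_nonneg_left i2 hD2
        have i5 : (65537 * (D1 * ((n : ℝ) - 1 - j) + D2 * j)) * W ≤ (D1 * ((a2 : ℝ) * A - 65537 * (B1 + j)) + D2 * (65537 * (B1 + j) - a1 * A)) * W := by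
          apply mul_le_mul_of_nonneg_right _ hW.le
          linarith
        linarith
      linarith
    have hsum : ∑ j ∈ Finset.range n, ((D1 * ((n : ℝ) - 1 - j) + D2 * j) / W - 1) ≤ ∑ j ∈ Finset.range n, ((G j).card : ℝ) :=
      Finset.sum_le_sum key
    rw [Finset.sum_sub_distrib, ← Finset.sum_div, trl_sum] at hsum
    simp only [Finset.sum_const, Finset.card_range, nsmul_eq_mul, mul_one] at hsum
    push_cast
    refine le_trans ?_ hsum
    set m : ℝ := W * A / 65537 with hm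
    have hm0 : 0 ≤ m := by positivity
    have hmm : m = (a2 : ℝ) * A / 65537 - (a1 : ℝ) * A / 65537 := by rw [hm, hWdef]; ring
    have hn1 : m - 1 ≤ n := by linarith
    have hn2 : (n : ℝ) ≤ m + 1 := by linarith
    have hn0 : (0 : ℝ) ≤ (n : ℝ) := Nat.cast_nonneg n
    have hnn : m ^ 2 - 3 * m ≤ (n : ℝ) * (n - 1) := by
      rcases le_or_gt m 3 with h | h
      · have : (0 : ℝ) ≤ (n : ℝ) * (n - 1) := by
          rcases Nat.eq_zero_or_pos n with h0 | h0
          · rw [h0]; simp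
          · have : (1 : ℝ) ≤ n := by exact_mod_cast h0
            exact mul_nonneg hn0 (by linarith)
        nlinarith
      · nlinarith
    have hfin : (D1 + D2) * (m ^ 2 - 3 * m) / 2 / W - (m + 1) ≤ (D1 + D2) * ((n : ℝ) * (n - 1)) / 2 / W - n := by
      have : (D1 + D2) * (m ^ 2 - 3 * m) ≤ (D1 + D2) * ((n : ℝ) * (n - 1)) :=
        mul_le_mul_of_nonneg_left hnn (by linarith)
      have h10 : (D1 + D2) * (m ^ 2 - 3 * m) / 2 / W ≤ (D1 + D2) * ((n : ℝ) * (n - 1)) / 2 / W := by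
        apply div_le_div_of_nonneg_right _ hW.le
        linarith
      linarith
    refine le_trans ?_ hfin
    have har : ((ar (a1, l1, h1) (a2, l2, h2) : ℤ) : ℝ) = W * (D1 + D2) := by
      simp only [ar, hWdef, hD1def, hD2def]
      push_cast
      ring
    rw [har, hm]
    have e3 : (D1 + D2) * ((W * A / 65537) ^ 2 - 3 * (W * A / 65537)) / 2 / W = W * (D1 + D2) / (2 * 65537 ^ 2) * A ^ 2 - 3 / 2 * (D1 + D2) / 65537 * A := by
      have : W ≠ 0 := hW.ne'
      field_simp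
    rw [e3]
    have e4 : (3 / 2 * (D1 + D2) / 65537 + W / 65537 + 1) * (A : ℝ) = 3 / 2 * (D1 + D2) / 65537 * A + W * A / 65537 + A := by ring
    rw [e4]
    linarith

end Pool.Agent.S6D
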