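import Pool.Agent.helper75.S6D.CRT
import Pool.Agent.helper90.S6D.P6C
import Pool.Agent.helper54.S6D.IRR
import Pool.Agent.helper53.S6D.FC2
import Pool.Agent.helper15.S6D.CE1
import Pool.Agent.helper59.S6D.CEL
import Pool.Agent.helper80.S6D.STB
import Pool.Agent.helper80.S6D.LOC
import Pool.Agent.helper26.S6D.GOD
import Pool.Agent.helper75.S6D.TRL
import Pool.Agent.helper5.S6D.CHL
import Pool.Agent.helper27.S6D.DJU
import Pool.Agent.helper5.S6D.EXC
import Pool.Agent.helper5.S6D.SUL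
import Pool.Agent.helper56.S6D.LW6
import Pool.Agent.helper5.S6D.EXT
import Pool.Agent.helper26.S6D.INJ
import Pool.Agent.helper56.S6D.BDC
import Pool.Agent.helper27.S6D.BCN
import Pool.Agent.helper35.S6D.SUU
import Pool.Agent.helper59.S6D.UP6
import Pool.Agent.helper27.S6D.CVX
import Pool.Agent.helper56.S6D.PAR

/-!
Assembly of the rows of project s6 (MP_2b41e9_nt).
-/

set_option autoImplicit false

noncomputable section

namespace Pool.Agent.S6D

open Pool.Agent.PSA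

theorem ALL_GOD : GOD_stmt := GOD LOC FC2 (IRR P6C) STB (CEL CE1) P6C

theorem ALL_LW6 : LW6_stmt := LW6 ALL_GOD LOC EXC SUL P6C

theorem ALL_UP6 : UP6_stmt := UP6 (EXT P6C) INJ BDC BCN SUU

theorem ALL_CRT : CRT_stmt ((89823695696 : ℝ) / (2 * 65537 ^ 2)) 3000 := CRT CVX PAR (CHL TRL) DJU

/-- At least 49/50 of the Salem numbers of degree 6 are Parry numbers. -/
theorem ALL_final : ∃ X₀ : ℝ, ∀ X : ℝ, X₀ ≤ X → (SS 6 X).Finite ∧
    49 / 50 * ((SS 6 X).ncard : ℝ) ≤ ((SS 6 X ∩ {β | PerB 3000 β}).ncard : ℝ) :=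
  FINAL_of ((89823695696 : ℝ) / (2 * 65537 ^ 2)) (49 / 50) 3000 (by positivity) (by norm_num) (by norm_num)
    ALL_LW6 ALL_UP6 ALL_CRT

end Pool.Agent.S6D
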