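import Pool.Agent.helper75.S6D.Snd2
import Pool.Agent.helper75.S6D.D01
import Pool.Agent.helper75.S6D.D02
import Pool.Agent.helper75.S6D.D03
import Pool.Agent.helper75.S6D.D04
import Pool.Agent.helper75.S6D.D05
import Pool.Agent.helper75.S6D.D06
import Pool.Agent.helper75.S6D.D07
import Pool.Agent.helper75.S6D.D08
import Pool.Agent.helper75.S6D.D09
import Pool.Agent.helper75.S6D.D10
import Pool.Agent.helper75.S6D.D11
import Pool.Agent.helper75.S6D.D12

/-! Project s6 (MP_2b41e9_nt): the certificate. -/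

set_option autoImplicit false

noncomputable section

namespace Pool.Agent.S6D

open Pool.Agent.PSA

theorem srt_append : ∀ (l l' : List CC) (lo mid hi : ℕ), srt lo mid l = true → srt mid hi l' = true →
    srt lo hi (l ++ l') = true
  | [], l', lo, mid, hi, h, h' => by
    have h1 : lo ≤ mid := Nat.le_of_ble_eq_true h
    cases l' with
    | nil =>
      have h2 : mid ≤ hi := Nat.le_of_ble_eq_true h'
      exact Nat.ble_eq_true_of_le (h1.trans h2)
    | cons c l' =>
      change (Nat.blt mid c.key && srt c.key hi l') = true at h'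
      rw [Bool.and_eq_true] at h'
      change (Nat.blt lo c.key && srt c.key hi l') = true
      rw [Bool.and_eq_true]
      have h2 : mid < c.key := Nat.le_of_ble_eq_true h'.1
      exact ⟨Nat.ble_eq_true_of_le (show lo + 1 ≤ c.key by omega), h'.2⟩
  | c :: l, l', lo, mid, hi, h, h' => by
    change (Nat.blt lo c.key && srt c.key mid l) = true at h
    rw [Bool.and_eq_true] at h
    change (Nat.blt lo c.key && srt c.key hi (l ++ l')) = true
    rw [Bool.and_eq_true]
    exact ⟨h.1, srt_append l l' _ _ _ h.2 h'⟩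

theorem srt_spec : ∀ (l : List CC) (lo hi : ℕ), srt lo hi l = true →
    (∀ c ∈ l, lo < c.key) ∧ l.Pairwise (fun c c' => c.key < c'.key)
  | [], _, _, _ => ⟨fun c hc => absurd hc List.not_mem_nil, List.Pairwise.nil⟩
  | c :: l, lo, hi, h => by
    change (Nat.blt lo c.key && srt c.key hi l) = true at h
    rw [Bool.and_eq_true] at h
    obtain ⟨h1, h2⟩ := srt_spec l _ _ h.2
    have h3 : lo < c.key := Nat.le_of_ble_eq_true h.1
    refine ⟨?_, List.pairwise_cons.2 ⟨h1, h2⟩⟩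
    intro c' hc'
    rcases List.mem_cons.1 hc' with h4 | h4
    · rw [h4]
      exact h3
    · exact h3.trans (h1 c' h4)

theorem tot_append : ∀ (l l' : List CC), tot (l ++ l') = tot l + tot l'
  | [], l' => (Nat.zero_add _).symm
  | c :: l, l' => by
    change arn c.l + tot (l ++ l') = arn c.l + tot l + tot l'
    rw [tot_append l l']
    omega

/-- a certificate -/
structure Cert (l : List CC) (lo hi s : ℕ) : Prop where
  g : l.all good = true
  r : srt lo hi l = true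
  t : tot l = s
  n : (l.all fun c => Nat.ble c.n 2999) = true

theorem Cert.append {l l' : List CC} {lo mid hi s s' : ℕ} (h : Cert l lo mid s) (h' : Cert l' mid hi s') :
    Cert (l ++ l') lo hi (s + s') :=
  ⟨by rw [List.all_append, h.g, h'.g]; rfl, srt_append _ _ _ _ _ h.r h'.r, by rw [tot_append, h.t, h'.t],
    by rw [List.all_append, h.n, h'.n]; rfl⟩

/-- From a certificate to the count. -/
theorem CRT_of (hCVX : CVX_stmt) (hPAR : PAR_stmt) (hCHL : CHL_stmt) (hDJU : DJU_stmt) {l : List CC} {lo hi s : ℕ}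
    (h : Cert l lo hi s) : CRT_stmt ((s : ℝ) / (2 * 65537 ^ 2)) 3000 := by
  have hg : ∀ c ∈ l, good c = true := List.all_eq_true.1 h.g
  have hn : ∀ c ∈ l, c.n + 1 ≤ 3000 := fun c hc => by
    have := Nat.le_of_ble_eq_true (List.all_eq_true.1 h.n c hc)
    omega
  let Rs : List ((ℝ → ℝ → Prop) × ℝ) := l.map fun c => (Ch (chn c), ((arn c.l : ℕ) : ℝ) / (2 * 65537 ^ 2))
  have h1 : ∀ r ∈ Rs, LB r.1 r.2 := by
    intro r hr
    obtain ⟨c, hc, rfl⟩ := List.mem_map.1 hr
    obtain ⟨k1, k2, -⟩ := good_spec hCVX hPAR c (hg c hc)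
    have k3 : ((arn c.l : ℕ) : ℝ) = ((arc (chn c) : ℤ) : ℝ) := by exact_mod_cast k2
    change LB (Ch (chn c)) (((arn c.l : ℕ) : ℝ) / (2 * 65537 ^ 2))
    rw [k3]
    exact hCHL _ k1
  have h2 : Rs.Pairwise (fun r r' => ∀ x y : ℝ, ¬(r.1 x y ∧ r'.1 x y)) := by
    refine List.pairwise_map.2 ?_
    have h3 := (srt_spec l lo hi h.r).2
    refine List.Pairwise.imp_of_mem ?_ h3
    intro c c' hc hc' hk x y hxy
    obtain ⟨-, -, k1⟩ := good_spec hCVX hPAR c (hg c hc)
    obtain ⟨-, -, k2⟩ := good_spec hCVX hPAR c' (hg c' hc')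
    obtain ⟨-, ⟨a1, a2, a3, -⟩, a4⟩ := k1 x y hxy.1
    obtain ⟨-, ⟨b1, b2, b3, -⟩, b4⟩ := k2 x y hxy.2
    have e : c.n + 1 = c'.n + 1 := by
      rcases lt_trichotomy (c.n + 1) (c'.n + 1) with h4 | h4 | h4
      · exact absurd a2 (b3 _ (by omega) h4)
      · exact h4
      · exact absurd b2 (a3 _ (by omega) h4)
    rw [e] at a4
    rw [a4] at b4
    omega
  obtain ⟨K, hK⟩ := hDJU Rs h1 h2
  have h4 : (Rs.map Prod.snd).sum = (s : ℝ) / (2 * 65537 ^ 2) := by
    have h5 : ∀ l : List CC, ((l.map fun c => (Ch (chn c), ((arn c.l : ℕ) : ℝ) / (2 * 65537 ^ 2))).map Prod.snd).sum =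
        ((tot l : ℕ) : ℝ) / (2 * 65537 ^ 2) := by
      intro l
      induction l with
      | nil =>
        change (0 : ℝ) = ((0 : ℕ) : ℝ) / (2 * 65537 ^ 2)
        simp
      | cons c l ih =>
        rw [List.map_cons, List.map_cons, List.sum_cons, ih]
        change _ = ((arn c.l + tot l : ℕ) : ℝ) / (2 * 65537 ^ 2)
        push_cast
        ring
    rw [h5, h.t]
  rw [h4] at hK
  refine ⟨K, fun A hA => ?_⟩
  obtain ⟨F, hF, hc⟩ := hK A hA
  refine ⟨F, fun z hz => ?_, hc⟩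
  obtain ⟨r, hr, hz'⟩ := hF z hz
  obtain ⟨c, hcl, rfl⟩ := List.mem_map.1 hr
  obtain ⟨-, -, k1⟩ := good_spec hCVX hPAR c (hg c hcl)
  obtain ⟨k2, k3, -⟩ := k1 _ _ hz'
  exact ⟨k2, c.n + 1, hn c hcl, k3⟩

/-- The whole certificate. -/
theorem CRT_cert : Cert (dat01 ++ (dat02 ++ (dat03 ++ (dat04 ++ (dat05 ++ (dat06 ++ (dat07 ++ (dat08 ++ (dat09 ++
    (dat10 ++ (dat11 ++ dat12))))))))))) 0 2305767443995315400 89823695696 :=
  Cert.append ⟨g01, s01, a01, n01⟩ (Cert.append ⟨g02, s02, a02, n02⟩ (Cert.append ⟨g03, s03, a03, n03⟩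
    (Cert.append ⟨g04, s04, a04, n04⟩ (Cert.append ⟨g05, s05, a05, n05⟩ (Cert.append ⟨g06, s06, a06, n06⟩
    (Cert.append ⟨g07, s07, a07, n07⟩ (Cert.append ⟨g08, s08, a08, n08⟩ (Cert.append ⟨g09, s09, a09, n09⟩
    (Cert.append ⟨g10, s10, a10, n10⟩ (Cert.append ⟨g11, s11, a11, n11⟩ ⟨g12, s12, a12, n12⟩))))))))))

theorem CRT (hCVX : CVX_stmt) (hPAR : PAR_stmt) (hCHL : CHL_stmt) (hDJU : DJU_stmt) :
    CRT_stmt ((89823695696 : ℝ) / (2 * 65537 ^ 2)) 3000 := by
  have h := CRT_of hCVX hPAR hCHL hDJU CRT_cert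
  exact_mod_cast h

end Pool.Agent.S6D
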