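import Pool.Agent.helper75.S6D.Spec

/-!
# Project s6 (MP_2b41e9_nt): the certificate checker

All numbers are natural numbers, `N = 65537`: `x' = x + 4N`, `y' = y + 2N` for the coordinates (in units of 1/N) and `a' = a + 512` for
the entries of the codes. With `c1 = a1' + a3'`: `N * sv = N (a' + a4' + 4096) + c1 x' + a2' y' - (2N (2 c1 + a2') + 1024 x' + 512 y')`.
The test at all the vertices of a chain is one test with packed numbers (digits to the base `2^40`).
-/

set_option autoImplicit false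

noncomputable section

namespace Pool.Agent.S6D

/-- `f n`; the kernel evaluates `n` first. -/
def frc (n : Nat) (f : Nat → Bool) : Bool := Nat.rec (f 0) (fun m _ => f (Nat.succ m)) n

/-- `c` and `e`. -/
def anb (c e : Bool) : Bool := Bool.rec false e c

/-- not `c`, and `e`. -/
def nab (c e : Bool) : Bool := Bool.rec e false c

/-- If `c` then `t` else `e`. -/
def itb (c t e : Bool) : Bool := Bool.rec e t c

/-- The packed test: all the numbers `z_j - 1` are in `[0, 65535]`. -/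
def tst (NO NO2 VX VY VQ M TOP c1 a2 a4 a : Nat) : Bool :=
  Nat.beq (Nat.land (Nat.sub (Nat.add (Nat.add (Nat.mul (Nat.add a (Nat.add a4 4096)) NO) (Nat.mul c1 VX)) (Nat.add (Nat.mul a2 VY) TOP))
    (Nat.add (Nat.mul (Nat.add (Nat.mul 2 c1) a2) NO2) VQ)) M) TOP

/-- The next entry, computed from the reference point `(x0, y0)`, `w0 = 1024 x0 + 512 y0`. -/
def nxt (x0 y0 w0 c1 a2 a4 : Nat) : Nat :=
  Nat.succ (Nat.div (Nat.sub (Nat.add w0 (Nat.mul 131074 (Nat.add (Nat.mul 2 c1) a2)))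
    (Nat.add (Nat.mul 65537 (Nat.add a4 4096)) (Nat.add (Nat.mul c1 x0) (Nat.mul a2 y0)))) 65537)

/-- The test of one step. -/
def ck (NO NO2 VX VY VQ M TOP c1 a2 a4 a : Nat) : Bool :=
  anb (Nat.blt a 65536) (itb (anb (Nat.beq c1 1024) (Nat.beq a2 512)) (Nat.beq (Nat.add a a4) 1025)
    (tst NO NO2 VX VY VQ M TOP c1 a2 a4 a))

/-- Is `(a1, a2, a3, a4)` the initial state? -/
def isi (a1 a2 a3 a4 : Nat) : Bool :=
  anb (Nat.beq a2 512) (anb (Nat.beq a1 513) (anb (Nat.beq a3 512) (Nat.beq a4 512)))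

/-- The hash. -/
def hs (h a : Nat) : Nat := Nat.mod (Nat.add (Nat.mul h 1000003) a) 2305843009213693951

/-- The end: the state is the initial state, the hash is `key`. -/
def lpB (key a1 a2 a3 a4 h : Nat) : Bool := anb (isi a1 a2 a3 a4) (Nat.beq h key)

/-- One step: the state is not the initial state; the next entry `a`, the next hash. -/
def lpS (x0 y0 w0 NO NO2 VX VY VQ M TOP : Nat) (ih : Nat → Nat → Nat → Nat → Nat → Bool) (a1 a2 a3 a4 h : Nat) : Bool :=
  nab (isi a1 a2 a3 a4) (frc (nxt x0 y0 w0 (Nat.add a1 a3) a2 a4) fun a =>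
    anb (ck NO NO2 VX VY VQ M TOP (Nat.add a1 a3) a2 a4 a) (frc (hs h a) (ih a a1 a2 a3)))

/-- `n` further steps. -/
def lp (x0 y0 w0 NO NO2 VX VY VQ M TOP key : Nat) (n : Nat) : Nat → Nat → Nat → Nat → Nat → Bool :=
  Nat.rec (lpB key) (fun _ ih => lpS x0 y0 w0 NO NO2 VX VY VQ M TOP ih) n

/-- The code test for a cell with period `n + 1`. -/
def code (x0 y0 w0 NO NO2 VX VY VQ M TOP key n : Nat) : Bool :=
  frc (nxt x0 y0 w0 1025 512 512) fun a =>
    anb (ck NO NO2 VX VY VQ M TOP 1025 512 512 a) (frc (hs 0 a) (lp x0 y0 w0 NO NO2 VX VY VQ M TOP key n a 513 512 512))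

/-- Geometry of one vertical side `(x', l', h')`: `x' ≤ 8N`, `l' ≤ h' < 2^20`, `y ≥ 2 |x| - 2 + 1/N` at the lower vertex. -/
def vx1 (x l h : Nat) : Bool :=
  anb (Nat.ble x 524296) (anb (Nat.ble l h) (anb (Nat.ble h 1048575)
    (anb (Nat.ble (Nat.add (Nat.mul 2 x) 1) (Nat.add l 524296)) (Nat.ble 524297 (Nat.add l (Nat.mul 2 x))))))

/-- The parabola test `16 N h' + w² + 16 N ≤ 64 N² + 4 x²`. -/
def pb (w x h : Nat) : Bool :=
  Nat.ble (Nat.add (Nat.add (Nat.mul 1048592 h) (Nat.mul w w)) 1048592)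
    (Nat.add 274886295616 (Nat.mul 4 (Nat.mul (Nat.add (Nat.sub x 262148) (Nat.sub 262148 x)) (Nat.add (Nat.sub x 262148) (Nat.sub 262148 x)))))

/-- Decode `n` triples of digits to the base `2^40`. -/
def dec : Nat → Nat → Nat → Nat → List (Nat × Nat × Nat)
  | 0, _, _, _ => []
  | n + 1, p, q, r => (p % 1099511627776, q % 1099511627776, r % 1099511627776) ::
      dec n (p / 1099511627776) (q / 1099511627776) (r / 1099511627776)

/-- The geometry test. -/
def geo : List (Nat × Nat × Nat) → Bool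
  | v :: w :: l => vx1 v.1 v.2.1 v.2.2 && (Nat.blt v.1 w.1 && (pb (w.1 - v.1) v.1 v.2.2 &&
      (pb (w.1 - v.1) w.1 w.2.2 && geo (w :: l))))
  | [v] => vx1 v.1 v.2.1 v.2.2
  | [] => true

/-- `2 N² *` area. -/
def arn : List (Nat × Nat × Nat) → Nat
  | v :: w :: l => (w.1 - v.1) * ((v.2.2 - v.2.1) + (w.2.2 - w.2.1)) + arn (w :: l)
  | _ => 0

/-- A cell of the certificate: the hash `key` of its code, the period `n + 1`, the reference point, the number `k` of the vertical
sides and the packed coordinates. -/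
structure CC where
  key : Nat
  n : Nat
  x0 : Nat
  y0 : Nat
  k : Nat
  vx : Nat
  vl : Nat
  vh : Nat

/-- The sides of a cell. -/
def CC.l (c : CC) : List (Nat × Nat × Nat) := dec c.k c.vx c.vl c.vh

/-- The test of the code of a cell, `TK = 2^(40 k)`. -/
def gdc (key n x0 y0 vx vl vh TK : Nat) : Bool :=
  anb (anb (Nat.blt vx TK) (anb (Nat.blt vl TK) (Nat.blt vh TK)))
  (frc (Nat.mul TK TK) fun TOP =>
  frc (Nat.div (Nat.sub TOP 1) 1099511627775) fun O =>
  frc (Nat.add vx (Nat.mul vx TK)) fun VX =>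
  frc (Nat.add vl (Nat.mul vh TK)) fun VY =>
  frc (Nat.mul 65537 O) fun NO =>
  frc (Nat.mul 131074 O) fun NO2 =>
  frc (Nat.add (Nat.add (Nat.mul 1024 VX) (Nat.mul 512 VY)) O) fun VQ =>
  frc (Nat.add (Nat.mul 1099511562240 O) TOP) fun M =>
  frc (Nat.add (Nat.mul 1024 x0) (Nat.mul 512 y0)) fun w0 =>
  code x0 y0 w0 NO NO2 VX VY VQ M TOP key n)

/-- The test of a cell. -/
def good (c : CC) : Bool :=
  anb (geo c.l) (frc (Nat.pow 1099511627776 c.k) (gdc c.key c.n c.x0 c.y0 c.vx c.vl c.vh))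

/-- Sorted keys in `(lo, hi]`. -/
def srt : Nat → Nat → List CC → Bool
  | lo, hi, [] => Nat.ble lo hi
  | lo, hi, c :: l => Nat.blt lo c.key && srt c.key hi l

/-- The total area (times `2 N²`). -/
def tot : List CC → Nat
  | [] => 0
  | c :: l => arn c.l + tot l

end Pool.Agent.S6D
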