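import Pool.Agent.helper75.S6D.Chk

/-! Project s6: the packed test. -/

set_option autoImplicit false

noncomputable section

namespace Pool.Agent.S6D

theorem frc_eq (n : Nat) (f : Nat → Bool) : frc n f = f n := by cases n <;> rfl

theorem anb_iff (c e : Bool) : anb c e = true ↔ c = true ∧ e = true := by cases c <;> cases e <;> simp [anb]

theorem nab_iff (c e : Bool) : nab c e = true ↔ ¬ c = true ∧ e = true := by cases c <;> cases e <;> simp [nab]

theorem itb_iff (c t e : Bool) : itb c t e = true ↔ (c = true ∧ t = true) ∨ (¬ c = true ∧ e = true) := by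
  cases c <;> cases t <;> cases e <;> simp [itb]

/-- `1 + W + ... + W^(n-1)` -/
def On : ℕ → ℕ
  | 0 => 0
  | n + 1 => 1 + 1099511627776 * On n

theorem On_succ (n : ℕ) : On (n + 1) = 1 + 1099511627776 * On n := rfl

theorem On_zero : On 0 = 0 := rfl

theorem On_eq (n : ℕ) : On n * 1099511627775 + 1 = 1099511627776 ^ n := by
  induction n with
  | zero => rfl
  | succ n ih =>
    rw [pow_succ, ← ih, On_succ]
    ring

theorem On_div (n : ℕ) : (1099511627776 ^ n - 1) / 1099511627775 = On n := by
  rw [← On_eq n, Nat.add_sub_cancel]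
  exact Nat.mul_div_cancel _ (by norm_num)

theorem Pck_and (e : ℕ) (he : e < 1099511627776) (h : e &&& 1099511562240 = 0) : e < 65536 := by
  have h1 : (e &&& 1099511562240) >>> 16 = 0 := by rw [h]; rfl
  rw [Nat.shiftRight_and_distrib] at h1
  have h2 : (1099511562240 : ℕ) >>> 16 = 2 ^ 24 - 1 := by decide
  rw [h2, Nat.and_two_pow_sub_one_eq_mod, Nat.shiftRight_eq_div_pow] at h1
  have h3 : e / 2 ^ 16 < 2 ^ 24 := by
    rw [Nat.div_lt_iff_lt_mul (by norm_num)]
    exact lt_of_lt_of_le he (by norm_num)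
  rw [Nat.mod_eq_of_lt h3] at h1
  have h4 := Nat.div_eq_zero_iff.1 h1
  omega

/-- one digit of the packed test -/
theorem Pck_one (E M n : ℕ) (hM : M % 1099511627776 = 1099511562240)
    (h : E &&& M = 1099511627776 ^ (n + 1)) :
    E % 1099511627776 < 65536 ∧ (E / 1099511627776) &&& (M / 1099511627776) = 1099511627776 ^ n := by
  have e40 : (1099511627776 : ℕ) = 2 ^ 40 := by norm_num
  constructor
  · refine Pck_and _ (Nat.mod_lt _ (by norm_num)) ?_
    rw [← hM, e40, ← Nat.and_mod_two_pow]
    rw [e40] at h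
    rw [h, ← e40, pow_succ, Nat.mul_mod_left]
  · rw [e40, ← Nat.shiftRight_eq_div_pow, ← Nat.shiftRight_eq_div_pow, ← Nat.shiftRight_and_distrib,
      Nat.shiftRight_eq_div_pow]
    rw [e40] at h
    rw [h, pow_succ]
    exact Nat.mul_div_cancel _ (by norm_num)

theorem Pck_lt (q R P : ℕ) (hq : q < 1099511627776) (h : R < P) :
    q + 1099511627776 * R < 1099511627776 * P := by omega

/-- the number at a vertex -/
theorem Pck_Q (c1 a2 : ℕ) (hc : c1 ≤ 131072) (ha : a2 ≤ 65536) (n : ℕ) : ∀ VX VY : ℕ,
    (∀ j, j < n → VX / 1099511627776 ^ j % 1099511627776 < 1048576 ∧ VY / 1099511627776 ^ j % 1099511627776 < 1048576) →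
    VX < 1099511627776 ^ n → VY < 1099511627776 ^ n →
    (2 * c1 + a2) * (131074 * On n) + (1024 * VX + 512 * VY + On n) < 1099511627776 ^ n := by
  induction n with
  | zero =>
    intro VX VY _ hX hY
    rw [pow_zero] at hX hY ⊢
    have : VX = 0 := by omega
    have : VY = 0 := by omega
    subst VX; subst VY
    rw [On_zero]
    norm_num
  | succ n ih =>
    intro VX VY hd hX hY
    have h0 := hd 0 (Nat.succ_pos n)
    rw [pow_zero, Nat.div_one, Nat.div_one] at h0
    have hX' : VX / 1099511627776 < 1099511627776 ^ n := by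
      rw [Nat.div_lt_iff_lt_mul (by norm_num), ← pow_succ]
      exact hX
    have hY' : VY / 1099511627776 < 1099511627776 ^ n := by
      rw [Nat.div_lt_iff_lt_mul (by norm_num), ← pow_succ]
      exact hY
    have h1 := ih (VX / 1099511627776) (VY / 1099511627776) (fun j hj => by
      have := hd (j + 1) (Nat.succ_lt_succ hj)
      rw [pow_succ', ← Nat.div_div_eq_div_mul, ← Nat.div_div_eq_div_mul] at this
      exact this) hX' hY'
    have e1 : VX = VX % 1099511627776 + 1099511627776 * (VX / 1099511627776) := (Nat.mod_add_div _ _).symm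
    have e2 : VY = VY % 1099511627776 + 1099511627776 * (VY / 1099511627776) := (Nat.mod_add_div _ _).symm
    set x := VX % 1099511627776
    set y := VY % 1099511627776
    set X := VX / 1099511627776
    set Y := VY / 1099511627776
    rw [pow_succ]
    have h2 : (2 * c1 + a2) * 131074 ≤ 327680 * 131074 := Nat.mul_le_mul_right _ (by omega)
    have e3 : (2 * c1 + a2) * (131074 * On (n + 1)) + (1024 * VX + 512 * VY + On (n + 1)) =
        ((2 * c1 + a2) * 131074 + 1024 * x + 512 * y + 1) +
        1099511627776 * ((2 * c1 + a2) * (131074 * On n) + (1024 * X + 512 * Y + On n)) := by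
      rw [On_succ, e1, e2]
      ring
    rw [e3]
    have h3 : (2 * c1 + a2) * 131074 + 1024 * x + 512 * y + 1 < 1099511627776 := by
      have := h0.1
      have := h0.2
      omega
    rw [mul_comm (1099511627776 ^ n)]
    exact Pck_lt _ _ _ h3 h1

theorem Pck_main (S c1 a2 : ℕ) (hS : S ≤ 262144) (hc : c1 ≤ 131072) (ha : a2 ≤ 65536) (n : ℕ) : ∀ VX VY : ℕ,
    (∀ j, j < n → VX / 1099511627776 ^ j % 1099511627776 < 1048576 ∧ VY / 1099511627776 ^ j % 1099511627776 < 1048576) →
    VX < 1099511627776 ^ n → VY < 1099511627776 ^ n →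
    ((S * (65537 * On n) + c1 * VX + (a2 * VY + 1099511627776 ^ n)) -
      ((2 * c1 + a2) * (131074 * On n) + (1024 * VX + 512 * VY + On n))) &&&
      (1099511562240 * On n + 1099511627776 ^ n) = 1099511627776 ^ n →
    ∀ j, j < n → (2 * c1 + a2) * 131074 + 1024 * (VX / 1099511627776 ^ j % 1099511627776) +
        512 * (VY / 1099511627776 ^ j % 1099511627776) + 1 ≤
        S * 65537 + c1 * (VX / 1099511627776 ^ j % 1099511627776) + a2 * (VY / 1099511627776 ^ j % 1099511627776) ∧
      S * 65537 + c1 * (VX / 1099511627776 ^ j % 1099511627776) + a2 * (VY / 1099511627776 ^ j % 1099511627776) ≤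
      (2 * c1 + a2) * 131074 + 1024 * (VX / 1099511627776 ^ j % 1099511627776) +
        512 * (VY / 1099511627776 ^ j % 1099511627776) + 65536 := by
  induction n with
  | zero => intro VX VY _ _ _ _ j hj; exact absurd hj (Nat.not_lt_zero j)
  | succ n ih =>
    intro VX VY hd hX hY hE j hj
    have h0 := hd 0 (Nat.succ_pos n)
    rw [pow_zero, Nat.div_one, Nat.div_one] at h0
    have hX' : VX / 1099511627776 < 1099511627776 ^ n := by
      rw [Nat.div_lt_iff_lt_mul (by norm_num), ← pow_succ]
      exact hX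
    have hY' : VY / 1099511627776 < 1099511627776 ^ n := by
      rw [Nat.div_lt_iff_lt_mul (by norm_num), ← pow_succ]
      exact hY
    have hd' : ∀ j, j < n → VX / 1099511627776 / 1099511627776 ^ j % 1099511627776 < 1048576 ∧
        VY / 1099511627776 / 1099511627776 ^ j % 1099511627776 < 1048576 := fun j hj => by
      have := hd (j + 1) (Nat.succ_lt_succ hj)
      rw [pow_succ', ← Nat.div_div_eq_div_mul, ← Nat.div_div_eq_div_mul] at this
      exact this
    have hQ := Pck_Q c1 a2 hc ha n _ _ hd' hX' hY'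
    have hrec := ih (VX / 1099511627776) (VY / 1099511627776) hd' hX' hY'
    have e1 : VX = VX % 1099511627776 + 1099511627776 * (VX / 1099511627776) := (Nat.mod_add_div _ _).symm
    have e2 : VY = VY % 1099511627776 + 1099511627776 * (VY / 1099511627776) := (Nat.mod_add_div _ _).symm
    obtain ⟨x, hx⟩ : ∃ x, x = VX % 1099511627776 := ⟨_, rfl⟩
    obtain ⟨y, hy⟩ : ∃ y, y = VY % 1099511627776 := ⟨_, rfl⟩
    obtain ⟨X, hXX⟩ : ∃ X, X = VX / 1099511627776 := ⟨_, rfl⟩
    obtain ⟨Y, hYY⟩ : ∃ Y, Y = VY / 1099511627776 := ⟨_, rfl⟩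
    rw [← hx, ← hy] at h0
    rw [← hx, ← hXX] at e1
    rw [← hy, ← hYY] at e2
    rw [← hXX, ← hYY] at hQ hrec
    -- the numbers of the digit 0
    obtain ⟨p, hp⟩ : ∃ p, p = S * 65537 + c1 * x + a2 * y := ⟨_, rfl⟩
    obtain ⟨q, hq⟩ : ∃ q, q = (2 * c1 + a2) * 131074 + 1024 * x + 512 * y + 1 := ⟨_, rfl⟩
    obtain ⟨P, hP⟩ : ∃ P, P = S * (65537 * On n) + c1 * X + (a2 * Y + 1099511627776 ^ n) := ⟨_, rfl⟩
    obtain ⟨Q, hQQ⟩ : ∃ Q, Q = (2 * c1 + a2) * (131074 * On n) + (1024 * X + 512 * Y + On n) := ⟨_, rfl⟩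
    rw [← hP, ← hQQ] at hrec
    rw [← hQQ] at hQ
    have hQP : Q < P := by
      rw [hP]
      refine lt_of_lt_of_le hQ ?_
      omega
    have hq1 : q + 65536 ≤ 1099511627776 := by
      have h2 : (2 * c1 + a2) * 131074 ≤ 327680 * 131074 := Nat.mul_le_mul_right _ (by omega)
      have := h0.1
      have := h0.2
      omega
    have hp1 : p < 1099511627776 := by
      have h2 : S * 65537 ≤ 262144 * 65537 := Nat.mul_le_mul_right _ hS
      have h3 : c1 * x ≤ 131072 * 1048576 := Nat.mul_le_mul hc h0.1.le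
      have h4 : a2 * y ≤ 65536 * 1048576 := Nat.mul_le_mul ha h0.2.le
      omega
    have eE : (S * (65537 * On (n + 1)) + c1 * VX + (a2 * VY + 1099511627776 ^ (n + 1))) -
      ((2 * c1 + a2) * (131074 * On (n + 1)) + (1024 * VX + 512 * VY + On (n + 1))) =
      (p + 1099511627776 - q) + 1099511627776 * (P - Q - 1) := by
      have h5 : S * (65537 * On (n + 1)) + c1 * VX + (a2 * VY + 1099511627776 ^ (n + 1)) = p + 1099511627776 * P := by
        rw [On_succ, e1, e2, hp, hP, pow_succ]
        ring
      have h6 : (2 * c1 + a2) * (131074 * On (n + 1)) + (1024 * VX + 512 * VY + On (n + 1)) = q + 1099511627776 * Q := by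
        rw [On_succ, e1, e2, hq, hQQ]
        ring
      rw [h5, h6]
      omega
    rw [eE] at hE
    have hM : (1099511562240 * On (n + 1) + 1099511627776 ^ (n + 1)) % 1099511627776 = 1099511562240 := by
      have : 1099511562240 * On (n + 1) + 1099511627776 ^ (n + 1) =
          1099511562240 + 1099511627776 * (1099511562240 * On n + 1099511627776 ^ n) := by
        rw [On_succ, pow_succ]
        ring
      rw [this, Nat.add_mul_mod_self_left]
    have hM2 : (1099511562240 * On (n + 1) + 1099511627776 ^ (n + 1)) / 1099511627776 =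
        1099511562240 * On n + 1099511627776 ^ n := by
      have : 1099511562240 * On (n + 1) + 1099511627776 ^ (n + 1) =
          1099511562240 + 1099511627776 * (1099511562240 * On n + 1099511627776 ^ n) := by
        rw [On_succ, pow_succ]
        ring
      rw [this]
      omega
    obtain ⟨h7, h8⟩ := Pck_one _ _ n hM hE
    rw [hM2] at h8
    have h9 : q ≤ p ∧ p ≤ q + 65535 ∧ ((p + 1099511627776 - q) + 1099511627776 * (P - Q - 1)) / 1099511627776 = P - Q := by
      omega
    rw [h9.2.2] at h8
    rcases j with _ | j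
    · rw [pow_zero, Nat.div_one, Nat.div_one, ← hx, ← hy]
      have := h9.1
      have := h9.2.1
      rw [hp, hq] at *
      omega
    · have h10 := hrec h8 j (Nat.lt_of_succ_lt_succ hj)
      rw [pow_succ', ← Nat.div_div_eq_div_mul, ← Nat.div_div_eq_div_mul, ← hXX, ← hYY]
      exact h10

end Pool.Agent.S6D
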