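import Pool.Agent.helper75.S6D.Pck

/-! Project s6: soundness of the checker. -/

set_option autoImplicit false

noncomputable section

namespace Pool.Agent.S6D

open Pool.Agent.PSA

/-- the side with integer coordinates -/
def tz (v : Nat × Nat × Nat) : ℤ × ℤ × ℤ := ((v.1 : ℤ) - 262148, (v.2.1 : ℤ) - 131074, (v.2.2 : ℤ) - 131074)

/-- the chain of a cell -/
def chn (c : CC) : List (ℤ × ℤ × ℤ) := c.l.map tz

/-- the state -/
def toSt (a1 a2 a3 a4 : ℕ) : St := ((a1 : ℤ) - 512, (a2 : ℤ) - 512, (a3 : ℤ) - 512, (a4 : ℤ) - 512)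

/-- the hash of a code -/
def hsh (st : ℕ → St) : ℕ → ℕ
  | 0 => 0
  | n + 1 => hs (hsh st n) ((st (n + 1)).1 + 512).toNat

/-! ## the list of the sides -/

theorem dec_mem (n : ℕ) : ∀ p q r : ℕ, ∀ j, j < n → ((p / 1099511627776 ^ j % 1099511627776,
    q / 1099511627776 ^ j % 1099511627776, r / 1099511627776 ^ j % 1099511627776) : Nat × Nat × Nat) ∈ dec n p q r := by
  induction n with
  | zero => intro p q r j hj; exact absurd hj (Nat.not_lt_zero j)
  | succ n ih =>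
    intro p q r j hj
    rcases j with _ | j
    · rw [pow_zero, Nat.div_one, Nat.div_one, Nat.div_one]
      exact List.mem_cons_self
    · have h := ih (p / 1099511627776) (q / 1099511627776) (r / 1099511627776) j (Nat.lt_of_succ_lt_succ hj)
      rw [Nat.div_div_eq_div_mul, Nat.div_div_eq_div_mul, Nat.div_div_eq_div_mul, ← pow_succ'] at h
      exact List.mem_cons_of_mem _ h

theorem mem_dec (n : ℕ) : ∀ p q r : ℕ, ∀ v ∈ dec n p q r, ∃ j, j < n ∧ v = ((p / 1099511627776 ^ j % 1099511627776,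
    q / 1099511627776 ^ j % 1099511627776, r / 1099511627776 ^ j % 1099511627776) : Nat × Nat × Nat) := by
  induction n with
  | zero => intro p q r v hv; exact absurd hv List.not_mem_nil
  | succ n ih =>
    intro p q r v hv
    rcases List.mem_cons.1 hv with h | h
    · exact ⟨0, Nat.succ_pos n, by rw [h, pow_zero, Nat.div_one, Nat.div_one, Nat.div_one]⟩
    · obtain ⟨j, hj, hv⟩ := ih _ _ _ v h
      refine ⟨j + 1, Nat.succ_lt_succ hj, ?_⟩
      rw [hv, Nat.div_div_eq_div_mul, Nat.div_div_eq_div_mul, Nat.div_div_eq_div_mul, ← pow_succ']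

theorem vx1_spec (x l h : ℕ) (H : vx1 x l h = true) :
    x ≤ 524296 ∧ l ≤ h ∧ h ≤ 1048575 ∧ 2 * x + 1 ≤ l + 524296 ∧ 524297 ≤ l + 2 * x := by
  unfold vx1 at H
  rw [anb_iff, anb_iff, anb_iff, anb_iff] at H
  obtain ⟨h1, h2, h3, h4, h5⟩ := H
  exact ⟨Nat.le_of_ble_eq_true h1, Nat.le_of_ble_eq_true h2, Nat.le_of_ble_eq_true h3, Nat.le_of_ble_eq_true h4,
    Nat.le_of_ble_eq_true h5⟩

theorem geo_mem : ∀ l : List (Nat × Nat × Nat), geo l = true → ∀ v ∈ l, vx1 v.1 v.2.1 v.2.2 = true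
  | [], _, v, hv => absurd hv List.not_mem_nil
  | [w], H, v, hv => by
    rw [List.mem_singleton.1 hv]
    exact H
  | w :: w' :: l, H, v, hv => by
    unfold geo at H
    simp only [Bool.and_eq_true] at H
    rcases List.mem_cons.1 hv with h | h
    · rw [h]
      exact H.1
    · exact geo_mem (w' :: l) H.2.2.2.2 v h

theorem geo_OKc : ∀ l : List (Nat × Nat × Nat), geo l = true → OKc (l.map tz)
  | [], _ => trivial
  | [w], H => by
    obtain ⟨-, h, -⟩ := vx1_spec _ _ _ H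
    change (tz w).2.1 ≤ (tz w).2.2
    unfold tz
    simp only
    omega
  | w :: w' :: l, H => by
    have H' := H
    unfold geo at H
    simp only [Bool.and_eq_true] at H
    obtain ⟨-, h, -⟩ := vx1_spec _ _ _ H.1
    have h2 := Nat.le_of_ble_eq_true H.2.1
    refine ⟨?_, ?_, geo_OKc (w' :: l) H.2.2.2.2⟩
    · unfold tz
      simp only
      have : w.1 < w'.1 := h2
      omega
    · unfold tz
      simp only
      omega

theorem arn_eq : ∀ l : List (Nat × Nat × Nat), geo l = true → ((arn l : ℕ) : ℤ) = arc (l.map tz)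
  | [], _ => rfl
  | [w], _ => rfl
  | w :: w' :: l, H => by
    have H' := H
    unfold geo at H
    simp only [Bool.and_eq_true] at H
    obtain ⟨-, h, -⟩ := vx1_spec _ _ _ H.1
    have h2 : w.1 < w'.1 := Nat.le_of_ble_eq_true H.2.1
    have h3 := vx1_spec _ _ _ (geo_mem _ H.2.2.2.2 w' List.mem_cons_self)
    have ih := arn_eq (w' :: l) H.2.2.2.2
    change (((w'.1 - w.1) * ((w.2.2 - w.2.1) + (w'.2.2 - w'.2.1)) + arn (w' :: l) : ℕ) : ℤ) =
      ar (tz w) (tz w') + arc ((w' :: l).map tz)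
    rw [← ih]
    unfold ar tz
    simp only
    push_cast [Nat.cast_sub h2.le, Nat.cast_sub h, Nat.cast_sub h3.2.1]
    ring

/-! ## convexity -/

theorem hull (hCVX : CVX_stmt) : ∀ l : List (ℤ × ℤ × ℤ), OKc l → ∀ x y : ℝ, Ch l x y → ∀ α β γ : ℝ,
    (∀ v ∈ l, 0 ≤ 65537 * α + β * v.1 + γ * v.2.1 ∧ 0 ≤ 65537 * α + β * v.1 + γ * v.2.2) → 0 ≤ α + β * x + γ * y
  | [], _, _, _, h => h.elim
  | [_], _, _, _, h => h.elim
  | p :: q :: l, hok, x, y, hc => by
    intro α β γ H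
    rcases hc with hc | hc
    · have h1 := H p List.mem_cons_self
      have h2 := H q (List.mem_cons_of_mem _ List.mem_cons_self)
      exact hCVX p q x y α β γ hok.1 hc h1.1 h1.2 h2.1 h2.2
    · exact hull hCVX (q :: l) hok.2.2 x y hc α β γ fun v hv => H v (List.mem_cons_of_mem _ hv)

theorem pb_spec (w x h : ℕ) (H : pb w x h = true) :
    (16 : ℤ) * 65537 * ((h : ℤ) - 131074) + (w : ℤ) ^ 2 + 16 * 65537 ≤ 32 * 65537 ^ 2 + 4 * ((x : ℤ) - 262148) ^ 2 := by
  have h1 := Nat.le_of_ble_eq_true H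
  have e1 : (Nat.add (Nat.add (Nat.mul 1048592 h) (Nat.mul w w)) 1048592) = 1048592 * h + w * w + 1048592 := rfl
  have e2 : (Nat.add 274886295616 (Nat.mul 4 (Nat.mul (Nat.add (Nat.sub x 262148) (Nat.sub 262148 x))
      (Nat.add (Nat.sub x 262148) (Nat.sub 262148 x))))) =
      274886295616 + 4 * ((x - 262148 + (262148 - x)) * (x - 262148 + (262148 - x))) := rfl
  rw [e1, e2] at h1
  have h2 : ((x - 262148 + (262148 - x) : ℕ) : ℤ) ^ 2 = ((x : ℤ) - 262148) ^ 2 := by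
    rcases le_total x 262148 with h | h
    · have : ((x - 262148 + (262148 - x) : ℕ) : ℤ) = 262148 - x := by omega
      rw [this]
      ring
    · have : ((x - 262148 + (262148 - x) : ℕ) : ℤ) = x - 262148 := by omega
      rw [this]
  have h3 : (1048592 * (h : ℤ) + w * w + 1048592) ≤
      274886295616 + 4 * (((x - 262148 + (262148 - x) : ℕ) : ℤ) * ((x - 262148 + (262148 - x) : ℕ) : ℤ)) := by
    exact_mod_cast h1
  have h5 : ((x - 262148 + (262148 - x) : ℕ) : ℤ) * ((x - 262148 + (262148 - x) : ℕ) : ℤ) = ((x : ℤ) - 262148) ^ 2 := by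
    rw [← sq]
    exact h2
  rw [h5] at h3
  linarith

theorem geo_par (hPAR : PAR_stmt) : ∀ l : List (Nat × Nat × Nat), geo l = true → ∀ x y : ℝ, Ch (l.map tz) x y →
    y ≤ 2 + x ^ 2 / 4 - 1 / 65537
  | [], _, _, _, h => h.elim
  | [_], _, _, _, h => h.elim
  | w :: w' :: l, H, x, y, hc => by
    have hok := geo_OKc _ H
    unfold geo at H
    simp only [Bool.and_eq_true] at H
    have h2 : w.1 < w'.1 := Nat.le_of_ble_eq_true H.2.1
    rcases hc with hc | hc
    · have h3 := pb_spec _ _ _ H.2.2.1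
      have h4 := pb_spec _ _ _ H.2.2.2.1
      have e : ((w'.1 - w.1 : ℕ) : ℤ) = (tz w').1 - (tz w).1 := by
        unfold tz
        simp only
        push_cast [Nat.cast_sub h2.le]
        ring
      rw [e] at h3 h4
      exact hPAR (tz w) (tz w') x y hok.1 hc h3 h4
    · exact geo_par hPAR (w' :: l) H.2.2.2.2 x y hc

theorem geo_W (hCVX : CVX_stmt) (hPAR : PAR_stmt) (l : List (Nat × Nat × Nat)) (H : geo l = true) (x y : ℝ)
    (hc : Ch (l.map tz) x y) : InW (1 / 65537) x y := by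
  have hok := geo_OKc _ H
  have key : ∀ v ∈ l.map tz, (-262148 : ℝ) ≤ v.1 ∧ (v.1 : ℝ) ≤ 262148 ∧ (v.2.1 : ℝ) ≤ v.2.2 ∧
      2 * (v.1 : ℝ) - 131074 + 1 ≤ v.2.1 ∧ -2 * (v.1 : ℝ) - 131074 + 1 ≤ v.2.1 := by
    intro v hv
    obtain ⟨w, hw, rfl⟩ := List.mem_map.1 hv
    obtain ⟨h1, h2, h3, h4, h5⟩ := vx1_spec _ _ _ (geo_mem _ H w hw)
    unfold tz
    have h1' : (w.1 : ℝ) ≤ 524296 := by exact_mod_cast h1
    have h2' : (w.2.1 : ℝ) ≤ w.2.2 := by exact_mod_cast h2
    have h4' : (2 : ℝ) * w.1 + 1 ≤ w.2.1 + 524296 := by exact_mod_cast h4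
    have h5' : (524297 : ℝ) ≤ w.2.1 + 2 * w.1 := by exact_mod_cast h5
    have h0 : (0 : ℝ) ≤ w.1 := Nat.cast_nonneg _
    push_cast
    refine ⟨by linarith, by linarith, by linarith, by linarith, by linarith⟩
  have c1 := hull hCVX _ hok x y hc 4 (-1) 0 fun v hv => by
    obtain ⟨h1, h2, h3, h4, h5⟩ := key v hv
    constructor <;> linarith
  have c2 := hull hCVX _ hok x y hc 4 1 0 fun v hv => by
    obtain ⟨h1, h2, h3, h4, h5⟩ := key v hv
    constructor <;> linarith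
  have c3 := hull hCVX _ hok x y hc (2 - 1 / 65537) (-2) 1 fun v hv => by
    obtain ⟨h1, h2, h3, h4, h5⟩ := key v hv
    constructor <;> linarith
  have c4 := hull hCVX _ hok x y hc (2 - 1 / 65537) 2 1 fun v hv => by
    obtain ⟨h1, h2, h3, h4, h5⟩ := key v hv
    constructor <;> linarith
  refine ⟨abs_le.2 ⟨by linarith, by linarith⟩, ?_, geo_par hPAR l H x y hc⟩
  rcases abs_cases x with ⟨h, -⟩ | ⟨h, -⟩ <;> rw [h] <;> linarith

/-! ## one step -/

theorem step_of (x y : ℝ) (a1 a2 a3 a4 a : ℕ)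
    (h : (a1 + a3 = 1024 ∧ a2 = 512 ∧ a + a4 = 1025) ∨
      (1 / 65537 ≤ ((a : ℝ) + a4 - 1024) + ((a1 : ℝ) + a3 - 1024) * x + ((a2 : ℝ) - 512) * y ∧
       ((a : ℝ) + a4 - 1024) + ((a1 : ℝ) + a3 - 1024) * x + ((a2 : ℝ) - 512) * y ≤ 1 - 1 / 65537)) :
    nx x y (toSt a1 a2 a3 a4) = toSt a a1 a2 a3 ∧ Gd (1 / 65537) x y (toSt a1 a2 a3 a4) ((toSt a a1 a2 a3).1) := by
  unfold nx Gd sv toSt
  simp only
  push_cast
  rcases h with ⟨h1, h2, h3⟩ | ⟨h1, h2⟩
  · have e1 : (a1 : ℝ) = 1024 - a3 := by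
      have : ((a1 + a3 : ℕ) : ℝ) = 1024 := by rw [h1]; norm_num
      push_cast at this
      linarith
    have e2 : (a2 : ℝ) = 512 := by rw [h2]; norm_num
    constructor
    · have e3 : x * ((a1 : ℝ) - 512 + ((a3 : ℝ) - 512)) + y * ((a2 : ℝ) - 512) + ((a4 : ℝ) - 512) = (((a4 : ℤ) - 512 : ℤ) : ℝ) := by
        rw [e1, e2]
        push_cast
        ring
      rw [e3, Int.ceil_intCast]
      refine Prod.ext ?_ rfl
      simp only
      omega
    · left
      refine ⟨by omega, by omega, by omega⟩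
  · constructor
    · refine Prod.ext ?_ rfl
      simp only
      have e4 : ⌈x * ((a1 : ℝ) - 512 + ((a3 : ℝ) - 512)) + y * ((a2 : ℝ) - 512) + ((a4 : ℝ) - 512)⌉ = 1 - ((a : ℤ) - 512) := by
        rw [Int.ceil_eq_iff]
        push_cast
        constructor
        · have : (0 : ℝ) < 1 / 65537 := by norm_num
          linarith
        · have : (0 : ℝ) < 1 / 65537 := by norm_num
          linarith
      rw [e4]
      ring
    · right
      constructor <;> linarith

/-- the vertices give the values at all the points of the chain -/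
theorem pts (hCVX : CVX_stmt) (l : List (Nat × Nat × Nat)) (H : geo l = true) (x y : ℝ) (hc : Ch (l.map tz) x y)
    (a1 a2 a3 a4 a : ℕ)
    (h : ∀ v ∈ l, ∀ t : ℕ, t = v.2.1 ∨ t = v.2.2 →
      (2 * (a1 + a3) + a2) * 131074 + 1024 * v.1 + 512 * t + 1 ≤
        (a + (a4 + 4096)) * 65537 + (a1 + a3) * v.1 + a2 * t ∧
      (a + (a4 + 4096)) * 65537 + (a1 + a3) * v.1 + a2 * t ≤
        (2 * (a1 + a3) + a2) * 131074 + 1024 * v.1 + 512 * t + 65536) :
    1 / 65537 ≤ ((a : ℝ) + a4 - 1024) + ((a1 : ℝ) + a3 - 1024) * x + ((a2 : ℝ) - 512) * y ∧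
       ((a : ℝ) + a4 - 1024) + ((a1 : ℝ) + a3 - 1024) * x + ((a2 : ℝ) - 512) * y ≤ 1 - 1 / 65537 := by
  have hok := geo_OKc _ H
  have key : ∀ v ∈ l, ∀ t : ℕ, t = v.2.1 ∨ t = v.2.2 →
      1 ≤ 65537 * ((a : ℝ) + a4 - 1024) + ((a1 : ℝ) + a3 - 1024) * ((v.1 : ℝ) - 262148) + ((a2 : ℝ) - 512) * ((t : ℝ) - 131074) ∧
      65537 * ((a : ℝ) + a4 - 1024) + ((a1 : ℝ) + a3 - 1024) * ((v.1 : ℝ) - 262148) + ((a2 : ℝ) - 512) * ((t : ℝ) - 131074) ≤ 65536 := by
    intro v hv t ht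
    obtain ⟨h1, h2⟩ := h v hv t ht
    have h1' : (2 * ((a1 : ℝ) + a3) + a2) * 131074 + 1024 * v.1 + 512 * t + 1 ≤
        ((a : ℝ) + (a4 + 4096)) * 65537 + (a1 + a3) * v.1 + a2 * t := by exact_mod_cast h1
    have h2' : ((a : ℝ) + (a4 + 4096)) * 65537 + (a1 + a3) * v.1 + a2 * t ≤
        (2 * ((a1 : ℝ) + a3) + a2) * 131074 + 1024 * v.1 + 512 * t + 65536 := by exact_mod_cast h2
    constructor <;> nlinarith [h1', h2']
  have c1 := hull hCVX _ hok x y hc ((a : ℝ) + a4 - 1024 - 1 / 65537) ((a1 : ℝ) + a3 - 1024) ((a2 : ℝ) - 512) fun v hv => by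
    obtain ⟨w, hw, rfl⟩ := List.mem_map.1 hv
    have k1 := (key w hw w.2.1 (Or.inl rfl)).1
    have k2 := (key w hw w.2.2 (Or.inr rfl)).1
    unfold tz
    push_cast
    constructor <;> linarith
  have c2 := hull hCVX _ hok x y hc (1 - 1 / 65537 - ((a : ℝ) + a4 - 1024)) (-((a1 : ℝ) + a3 - 1024)) (-((a2 : ℝ) - 512)) fun v hv => by
    obtain ⟨w, hw, rfl⟩ := List.mem_map.1 hv
    have k1 := (key w hw w.2.1 (Or.inl rfl)).2
    have k2 := (key w hw w.2.2 (Or.inr rfl)).2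
    unfold tz
    push_cast
    constructor <;> linarith
  constructor <;> linarith

end Pool.Agent.S6D
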