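import Pool.Agent.helper75.S6D.Snd

/-! Project s6: soundness of the checker, second part. -/

set_option autoImplicit false

noncomputable section

namespace Pool.Agent.S6D

open Pool.Agent.PSA

/-- digits of `V + W^k * V'` -/
theorem dig_lo (k V V' : ℕ) (j : ℕ) (hj : j < k) :
    (V + V' * 1099511627776 ^ k) / 1099511627776 ^ j % 1099511627776 = V / 1099511627776 ^ j % 1099511627776 := by
  obtain ⟨i, rfl⟩ : ∃ i, k = j + 1 + i := ⟨k - (j + 1), by omega⟩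
  have e : V' * 1099511627776 ^ (j + 1 + i) = 1099511627776 ^ j * (1099511627776 * (V' * 1099511627776 ^ i)) := by
    rw [pow_add, pow_succ]
    ring
  rw [e, Nat.add_mul_div_left _ _ (by positivity), Nat.add_mul_mod_self_left]

theorem dig_hi (k V V' : ℕ) (hV : V < 1099511627776 ^ k) (j : ℕ) :
    (V + V' * 1099511627776 ^ k) / 1099511627776 ^ (k + j) % 1099511627776 = V' / 1099511627776 ^ j % 1099511627776 := by
  rw [pow_add, ← Nat.div_div_eq_div_mul, Nat.add_mul_div_right _ _ (by positivity), Nat.div_eq_of_lt hV, zero_add]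

/-- the vertices from the packed test -/
theorem tst_spec (c : CC) (hg : geo c.l = true) (hx : c.vx < 1099511627776 ^ c.k) (hl : c.vl < 1099511627776 ^ c.k)
    (hh : c.vh < 1099511627776 ^ c.k) (a1 a2 a3 a4 a : ℕ) (h1 : a1 ≤ 65536) (h2 : a2 ≤ 65536) (h3 : a3 ≤ 65536)
    (h4 : a4 ≤ 65536) (h5 : a ≤ 65536)
    (H : tst (65537 * On (2 * c.k)) (131074 * On (2 * c.k)) (c.vx + c.vx * 1099511627776 ^ c.k) (c.vl + c.vh * 1099511627776 ^ c.k)
      (1024 * (c.vx + c.vx * 1099511627776 ^ c.k) + 512 * (c.vl + c.vh * 1099511627776 ^ c.k) + On (2 * c.k))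
      (1099511562240 * On (2 * c.k) + 1099511627776 ^ (2 * c.k)) (1099511627776 ^ (2 * c.k)) (a1 + a3) a2 a4 a = true) :
    ∀ v ∈ c.l, ∀ t : ℕ, t = v.2.1 ∨ t = v.2.2 →
      (2 * (a1 + a3) + a2) * 131074 + 1024 * v.1 + 512 * t + 1 ≤
        (a + (a4 + 4096)) * 65537 + (a1 + a3) * v.1 + a2 * t ∧
      (a + (a4 + 4096)) * 65537 + (a1 + a3) * v.1 + a2 * t ≤
        (2 * (a1 + a3) + a2) * 131074 + 1024 * v.1 + 512 * t + 65536 := by
  have hW : 0 < 1099511627776 ^ c.k := by positivity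
  have h2k : 1099511627776 ^ (2 * c.k) = 1099511627776 ^ c.k * 1099511627776 ^ c.k := by rw [two_mul, pow_add]
  have hpk : ∀ V V' : ℕ, V < 1099511627776 ^ c.k → V' < 1099511627776 ^ c.k →
      V + V' * 1099511627776 ^ c.k < 1099511627776 ^ (2 * c.k) := by
    intro V V' hV hV'
    rw [h2k]
    have : (V' + 1) * 1099511627776 ^ c.k ≤ 1099511627776 ^ c.k * 1099511627776 ^ c.k := Nat.mul_le_mul_right _ hV'
    rw [add_mul, one_mul] at this
    omega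
  have hbd : ∀ j, j < c.k → c.vx / 1099511627776 ^ j % 1099511627776 < 1048576 ∧
      c.vl / 1099511627776 ^ j % 1099511627776 < 1048576 ∧ c.vh / 1099511627776 ^ j % 1099511627776 < 1048576 := by
    intro j hj
    obtain ⟨k1, k2, k3, -⟩ := vx1_spec _ _ _ (geo_mem _ hg _ (dec_mem c.k c.vx c.vl c.vh j hj))
    simp only at k1 k2 k3
    refine ⟨by omega, by omega, by omega⟩
  have hd : ∀ j, j < 2 * c.k → (c.vx + c.vx * 1099511627776 ^ c.k) / 1099511627776 ^ j % 1099511627776 < 1048576 ∧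
      (c.vl + c.vh * 1099511627776 ^ c.k) / 1099511627776 ^ j % 1099511627776 < 1048576 := by
    intro j hj
    rcases lt_or_ge j c.k with h | h
    · rw [dig_lo _ _ _ _ h, dig_lo _ _ _ _ h]
      exact ⟨(hbd j h).1, (hbd j h).2.1⟩
    · obtain ⟨i, rfl⟩ : ∃ i, j = c.k + i := ⟨j - c.k, by omega⟩
      rw [dig_hi _ _ _ hx, dig_hi _ _ _ hl]
      exact ⟨(hbd i (by omega)).1, (hbd i (by omega)).2.2⟩
  have hE := Nat.eq_of_beq_eq_true H
  have key := Pck_main (a + (a4 + 4096)) (a1 + a3) a2 (by omega) (by omega) h2 (2 * c.k) _ _ hd (hpk _ _ hx hx) (hpk _ _ hl hh) hE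
  intro v hv t ht
  obtain ⟨j, hj, rfl⟩ := mem_dec _ _ _ _ v hv
  simp only at ht ⊢
  rcases ht with rfl | rfl
  · have h := key j (by omega)
    rw [dig_lo _ _ _ _ hj, dig_lo _ _ _ _ hj] at h
    exact h
  · have h := key (c.k + j) (by omega)
    rw [dig_hi _ _ _ hx, dig_hi _ _ _ hl] at h
    exact h

/-- the parameters of the loop -/
structure Par (c : CC) (NO NO2 VX VY VQ M TOP : ℕ) : Prop where
  hg : geo c.l = true
  hx : c.vx < 1099511627776 ^ c.k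
  hl : c.vl < 1099511627776 ^ c.k
  hh : c.vh < 1099511627776 ^ c.k
  e1 : NO = 65537 * On (2 * c.k)
  e2 : NO2 = 131074 * On (2 * c.k)
  e3 : VX = c.vx + c.vx * 1099511627776 ^ c.k
  e4 : VY = c.vl + c.vh * 1099511627776 ^ c.k
  e5 : VQ = 1024 * (c.vx + c.vx * 1099511627776 ^ c.k) + 512 * (c.vl + c.vh * 1099511627776 ^ c.k) + On (2 * c.k)
  e6 : M = 1099511562240 * On (2 * c.k) + 1099511627776 ^ (2 * c.k)
  e7 : TOP = 1099511627776 ^ (2 * c.k)

/-- one step -/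
theorem ck_spec (hCVX : CVX_stmt) {c : CC} {NO NO2 VX VY VQ M TOP : ℕ} (hp : Par c NO NO2 VX VY VQ M TOP)
    (a1 a2 a3 a4 a : ℕ) (h1 : a1 ≤ 65536) (h2 : a2 ≤ 65536) (h3 : a3 ≤ 65536) (h4 : a4 ≤ 65536)
    (H : ck NO NO2 VX VY VQ M TOP (a1 + a3) a2 a4 a = true) (x y : ℝ) (hc : Ch (chn c) x y) :
    a ≤ 65536 ∧ nx x y (toSt a1 a2 a3 a4) = toSt a a1 a2 a3 ∧
      Gd (1 / 65537) x y (toSt a1 a2 a3 a4) ((toSt a a1 a2 a3).1) := by
  unfold ck at H
  rw [anb_iff, itb_iff, anb_iff] at H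
  obtain ⟨ha, H⟩ := H
  have ha : a ≤ 65536 := by
    have := Nat.le_of_ble_eq_true ha
    omega
  refine ⟨ha, ?_⟩
  rcases H with ⟨⟨h5, h6⟩, H⟩ | ⟨-, H⟩
  · have e1 := Nat.eq_of_beq_eq_true h5
    have e2 := Nat.eq_of_beq_eq_true h6
    have e3 := Nat.eq_of_beq_eq_true H
    exact step_of x y a1 a2 a3 a4 a (Or.inl ⟨e1, e2, e3⟩)
  · obtain ⟨hg, hx, hl, hh, e1, e2, e3, e4, e5, e6, e7⟩ := hp
    subst e1 e2 e3 e4 e5 e6 e7
    exact step_of x y a1 a2 a3 a4 a (Or.inr (pts hCVX c.l hg x y hc a1 a2 a3 a4 a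
      (tst_spec c hg hx hl hh a1 a2 a3 a4 a h1 h2 h3 h4 ha H)))

attribute [local irreducible] hs nxt tst

theorem toSt_nat (a a1 a2 a3 : ℕ) : ((toSt a a1 a2 a3).1 + 512).toNat = a := by
  have h : (toSt a a1 a2 a3).1 + 512 = (a : ℤ) := by
    change (a : ℤ) - 512 + 512 = a
    ring
  rw [h]
  exact Int.toNat_natCast a

theorem isi_true {a1 a2 a3 a4 : ℕ} (h : isi a1 a2 a3 a4 = true) : toSt a1 a2 a3 a4 = ini := by
  unfold isi at h
  rw [anb_iff, anb_iff, anb_iff] at h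
  obtain ⟨h1, h2, h3, h4⟩ := h
  have e1 := Nat.eq_of_beq_eq_true h1
  have e2 := Nat.eq_of_beq_eq_true h2
  have e3 := Nat.eq_of_beq_eq_true h3
  have e4 := Nat.eq_of_beq_eq_true h4
  subst e1 e2 e3 e4
  rfl

theorem isi_false {a1 a2 a3 a4 : ℕ} (h : isi a1 a2 a3 a4 ≠ true) : toSt a1 a2 a3 a4 ≠ ini := by
  intro he
  apply h
  unfold toSt ini at he
  simp only [Prod.mk.injEq] at he
  obtain ⟨h1, h2, h3, h4⟩ := he
  have e1 : a1 = 513 := by omega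
  have e2 : a2 = 512 := by omega
  have e3 : a3 = 512 := by omega
  have e4 : a4 = 512 := by omega
  subst e1 e2 e3 e4
  rfl

theorem lp_zero (x0 y0 w0 NO NO2 VX VY VQ M TOP key : Nat) :
    lp x0 y0 w0 NO NO2 VX VY VQ M TOP key 0 = lpB key := rfl

theorem lp_succ (x0 y0 w0 NO NO2 VX VY VQ M TOP key n : Nat) :
    lp x0 y0 w0 NO NO2 VX VY VQ M TOP key (n + 1) =
      lpS x0 y0 w0 NO NO2 VX VY VQ M TOP (lp x0 y0 w0 NO NO2 VX VY VQ M TOP key n) := rfl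

theorem lpB_spec {key a1 a2 a3 a4 h : Nat} (H : lpB key a1 a2 a3 a4 h = true) : isi a1 a2 a3 a4 = true ∧ h = key := by
  unfold lpB at H
  rw [anb_iff] at H
  exact ⟨H.1, Nat.eq_of_beq_eq_true H.2⟩

theorem lpS_spec {x0 y0 w0 NO NO2 VX VY VQ M TOP : Nat} {ih : Nat → Nat → Nat → Nat → Nat → Bool} {a1 a2 a3 a4 h : Nat}
    (H : lpS x0 y0 w0 NO NO2 VX VY VQ M TOP ih a1 a2 a3 a4 h = true) :
    ¬ isi a1 a2 a3 a4 = true ∧ ∃ a : ℕ, ck NO NO2 VX VY VQ M TOP (a1 + a3) a2 a4 a = true ∧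
      ih a a1 a2 a3 (hs h a) = true := by
  unfold lpS at H
  rw [nab_iff, frc_eq, anb_iff, frc_eq] at H
  exact ⟨H.1, _, H.2⟩

theorem code_spec {x0 y0 w0 NO NO2 VX VY VQ M TOP key n : Nat}
    (H : code x0 y0 w0 NO NO2 VX VY VQ M TOP key n = true) :
    ∃ a : ℕ, ck NO NO2 VX VY VQ M TOP (513 + 512) 512 512 a = true ∧
      lp x0 y0 w0 NO NO2 VX VY VQ M TOP key n a 513 512 512 (hs 0 a) = true := by
  unfold code at H
  rw [frc_eq, anb_iff, frc_eq] at H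
  exact ⟨_, H⟩

/-- the loop -/
theorem lp_spec (hCVX : CVX_stmt) {c : CC} {NO NO2 VX VY VQ M TOP : ℕ} (hp : Par c NO NO2 VX VY VQ M TOP)
    (x0 y0 w0 key : ℕ) (x y : ℝ) (hc : Ch (chn c) x y) (n : ℕ) : ∀ (m a1 a2 a3 a4 h : ℕ), a1 ≤ 65536 → a2 ≤ 65536 →
    a3 ≤ 65536 → a4 ≤ 65536 → cd x y m = toSt a1 a2 a3 a4 → hsh (cd x y) m = h →
    lp x0 y0 w0 NO NO2 VX VY VQ M TOP key n a1 a2 a3 a4 h = true →
    cd x y (m + n) = ini ∧ hsh (cd x y) (m + n) = key ∧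
      ∀ i, m ≤ i → i < m + n → cd x y i ≠ ini ∧ Gd (1 / 65537) x y (cd x y i) (cd x y (i + 1)).1 := by
  induction n with
  | zero =>
    intro m a1 a2 a3 a4 h _ _ _ _ hcd hh H
    rw [lp_zero] at H
    obtain ⟨h1, h2⟩ := lpB_spec H
    refine ⟨by rw [add_zero, hcd]; exact isi_true h1, by rw [add_zero, hh]; exact h2, ?_⟩
    intro i h2 h3
    exact absurd h3 (by omega)
  | succ n ih =>
    intro m a1 a2 a3 a4 h h1 h2 h3 h4 hcd hh H
    rw [lp_succ] at H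
    obtain ⟨h5, a, h6, H⟩ := lpS_spec H
    obtain ⟨k1, k2, k3⟩ := ck_spec hCVX hp a1 a2 a3 a4 a h1 h2 h3 h4 h6 x y hc
    have hcd' : cd x y (m + 1) = toSt a a1 a2 a3 := by
      change nx x y (cd x y m) = _
      rw [hcd, k2]
    have hh' : hsh (cd x y) (m + 1) = hs h a := by
      change hs (hsh (cd x y) m) ((cd x y (m + 1)).1 + 512).toNat = _
      rw [hh, hcd', toSt_nat]
    obtain ⟨g1, g2, g3⟩ := ih (m + 1) a a1 a2 a3 (hs h a) k1 h1 h2 h3 hcd' hh' H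
    have e : m + (n + 1) = m + 1 + n := by omega
    rw [e]
    refine ⟨g1, g2, ?_⟩
    intro i h7 h8
    rcases Nat.eq_or_lt_of_le h7 with h9 | h9
    · rw [← h9, hcd', hcd]
      exact ⟨isi_false h5, k3⟩
    · exact g3 i h9 h8

theorem gdc_spec {key n x0 y0 vx vl vh TK : Nat} (H : gdc key n x0 y0 vx vl vh TK = true) :
    (vx < TK ∧ vl < TK ∧ vh < TK) ∧ ∃ w0 : ℕ,
      code x0 y0 w0 (65537 * ((TK * TK - 1) / 1099511627775)) (131074 * ((TK * TK - 1) / 1099511627775))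
        (vx + vx * TK) (vl + vh * TK) (1024 * (vx + vx * TK) + 512 * (vl + vh * TK) + (TK * TK - 1) / 1099511627775)
        (1099511562240 * ((TK * TK - 1) / 1099511627775) + TK * TK) (TK * TK) key n = true := by
  unfold gdc at H
  rw [anb_iff, anb_iff, anb_iff, frc_eq, frc_eq, frc_eq, frc_eq, frc_eq, frc_eq, frc_eq, frc_eq, frc_eq] at H
  obtain ⟨⟨h1, h2, h3⟩, H⟩ := H
  exact ⟨⟨Nat.le_of_ble_eq_true h1, Nat.le_of_ble_eq_true h2, Nat.le_of_ble_eq_true h3⟩, _, H⟩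

theorem good_spec (hCVX : CVX_stmt) (hPAR : PAR_stmt) (c : CC) (H : good c = true) :
    OKc (chn c) ∧ ((arn c.l : ℕ) : ℤ) = arc (chn c) ∧ ∀ x y : ℝ, Ch (chn c) x y →
      InW (1 / 65537) x y ∧ Cell (1 / 65537) (c.n + 1) x y ∧ hsh (cd x y) (c.n + 1) = c.key := by
  unfold good at H
  rw [anb_iff, frc_eq] at H
  obtain ⟨hg, H⟩ := H
  obtain ⟨⟨hx, hl, hh⟩, w0, H⟩ := gdc_spec H
  have eW : Nat.pow 1099511627776 c.k = 1099511627776 ^ c.k := rfl
  rw [eW] at hx hl hh H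
  have eT : 1099511627776 ^ c.k * 1099511627776 ^ c.k = 1099511627776 ^ (2 * c.k) := by
    rw [two_mul, pow_add]
  rw [eT, On_div] at H
  refine ⟨geo_OKc _ hg, arn_eq _ hg, fun x y hc => ⟨geo_W hCVX hPAR _ hg x y hc, ?_⟩⟩
  have hp : Par c (65537 * On (2 * c.k)) (131074 * On (2 * c.k)) (c.vx + c.vx * 1099511627776 ^ c.k)
      (c.vl + c.vh * 1099511627776 ^ c.k)
      (1024 * (c.vx + c.vx * 1099511627776 ^ c.k) + 512 * (c.vl + c.vh * 1099511627776 ^ c.k) + On (2 * c.k))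
      (1099511562240 * On (2 * c.k) + 1099511627776 ^ (2 * c.k)) (1099511627776 ^ (2 * c.k)) :=
    ⟨hg, hx, hl, hh, rfl, rfl, rfl, rfl, rfl, rfl, rfl⟩
  obtain ⟨a, h5, H⟩ := code_spec H
  obtain ⟨k1, k2, k3⟩ := ck_spec hCVX hp 513 512 512 512 a (by norm_num) (by norm_num) (by norm_num) (by norm_num) h5 x y hc
  have hini : toSt 513 512 512 512 = ini := rfl
  have hcd' : cd x y 1 = toSt a 513 512 512 := by
    change nx x y ini = _
    rw [← hini, k2]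
  have hh' : hsh (cd x y) 1 = hs 0 a := by
    change hs 0 ((cd x y 1).1 + 512).toNat = _
    rw [hcd', toSt_nat]
  obtain ⟨g1, g2, g3⟩ := lp_spec hCVX hp c.x0 c.y0 w0 c.key x y hc c.n 1 a 513 512 512 _ k1 (by norm_num) (by norm_num)
    (by norm_num) hcd' hh' H
  rw [Nat.add_comm 1 c.n] at g1 g2 g3
  refine ⟨⟨by omega, g1, fun i h6 h7 => (g3 i h6 h7).1, ?_⟩, g2⟩
  intro i hi
  rcases Nat.eq_zero_or_pos i with h6 | h6
  · subst h6
    rw [zero_add, hcd']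
    exact k3
  · exact (g3 i h6 hi).2

end Pool.Agent.S6D
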