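import Pool.Agent.helper75.PSA.All

/-!
# Project s6 (MP_2b41e9_nt): most Salem numbers of degree 6 are Parry numbers

Architect helper75; page /team-store/H_MP_2b41e9_nt_helper75_degree6.md. THEOREM. For all large `X` at least 98 percent
of the Salem numbers of degree 6, `≤ X`, are Parry numbers.

A Salem number `Λ` of degree 6 has the minimal polynomial `P6 A b c = x³ T(x + 1/x)`,
`T(t) = t³ - A t² - b t - (c - 2A) = (t - u)(t - v)(t - L)`, `L = Λ + 1/Λ`. With `q1 = -(u+v)`, `q2 = 2 + uv` the point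
`(b/A, c/A)` is at distance `≤ 24/A` from `(q1, q2)`. The code `cd x y` of a real point is the sequence of the states
`(a_n, a_(n-1), a_(n-2), a_(n-3))`, where `a_(n+1)` is the integer with `0 < a_(n+1) + x (a_n + a_(n-2)) + y a_(n-1) + a_(n-3) ≤ 1`.

RULES. File `Pool/Agent/<seat>/S6D/XX.lean`, `import Pool.Agent.helper75.S6D.Spec`, `namespace Pool.Agent.S6D`,
`open Polynomial Finset Pool.Agent.PSA`, `noncomputable section`; auxiliary lemmas prefixed `XX_`; other rows only as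
hypotheses (theorem lines in the lock notes); the theorems of `Pool.Agent.PSA` (`ALL_REC`, `ALL_SLM`, `QQB`, `QQC`, `UPB`, ...) may be
cited. No double quotes, no `convert`, no `congr!`, no `native_decide`.
-/

set_option autoImplicit false

open Polynomial Finset

noncomputable section

namespace Pool.Agent.S6D

open Pool.Agent.PSA

/-! ## Definitions -/

/-- A state `(a_n, a_(n-1), a_(n-2), a_(n-3))`. -/
abbrev St := ℤ × ℤ × ℤ × ℤ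

/-- The initial state. -/
def ini : St := (1, 0, 0, 0)

/-- `a + x (a_n + a_(n-2)) + y a_(n-1) + a_(n-3)`. -/
def sv (x y : ℝ) (s : St) (a : ℤ) : ℝ := a + x * (s.1 + s.2.2.1) + y * s.2.1 + s.2.2.2

/-- The next state: the new entry is the integer `a` with `0 < sv x y s a ≤ 1`. -/
def nx (x y : ℝ) (s : St) : St :=
  (1 - ⌈x * (s.1 + s.2.2.1) + y * s.2.1 + s.2.2.2⌉, s.1, s.2.1, s.2.2.1)

/-- The code of the point `(x, y)`. -/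
def cd (x y : ℝ) : ℕ → St
  | 0 => ini
  | n + 1 => nx x y (cd x y n)

/-- One step with margin `η` (or the coefficients of `x` and `y` vanish and the value is 1). -/
def Gd (η x y : ℝ) (s : St) (a : ℤ) : Prop :=
  (s.1 + s.2.2.1 = 0 ∧ s.2.1 = 0 ∧ a + s.2.2.2 = 1) ∨ (η ≤ sv x y s a ∧ sv x y s a ≤ 1 - η)

/-- The code of `(x, y)` returns for the first time after `T` steps, all with margin `η`. -/
def Cell (η : ℝ) (T : ℕ) (x y : ℝ) : Prop :=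
  1 ≤ T ∧ cd x y T = ini ∧ (∀ n : ℕ, 0 < n → n < T → cd x y n ≠ ini) ∧
    ∀ n : ℕ, n < T → Gd η x y (cd x y n) (cd x y (n + 1)).1

/-- `(x, y)` is inside the region of the parameters, with margin `η`. -/
def InW (η x y : ℝ) : Prop := |x| ≤ 4 ∧ 2 * |x| - 2 + η ≤ y ∧ y ≤ 2 + x ^ 2 / 4 - η

/-- The polynomial `x³ T(x + 1/x)`. -/
def P6 (A b c : ℤ) : ℤ[X] :=
  X ^ 6 - C A * X ^ 5 + C (3 - b) * X ^ 4 - C c * X ^ 3 + C (3 - b) * X ^ 2 - C A * X + 1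

/-- `T(t) = t³ - A t² - b t - (c - 2A) = (t - u)(t - v)(t - L)`. -/
def Rt (A b c : ℤ) (u v L : ℝ) : Prop :=
  (A : ℝ) = u + v + L ∧ (b : ℝ) = -(u * v + L * (u + v)) ∧ (c : ℝ) = u * v * L + 2 * A

/-- `T` has no integer root. -/
def NoInt (A b c : ℤ) : Prop := ∀ r : ℤ, r ^ 3 - A * r ^ 2 - b * r - (c - 2 * A) ≠ 0

/-- The sequence `s 0 = 1`, `s (n+1) = sv (state n) (new entry)`. -/
def ss (q1 q2 : ℝ) (st : ℕ → St) : ℕ → ℝ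
  | 0 => 1
  | n + 1 => sv q1 q2 (st n) (st (n + 1)).1

/-- The sequence of states `st` is a shift sequence. -/
def Shift (st : ℕ → St) (n : ℕ) : Prop := (st (n + 1)).2 = ((st n).1, (st n).2.1, (st n).2.2.1)

/-- The greedy expansion of 1 to the base `β` is `t_1 (t_2 ... t_(T+1))^∞` for some `T ≤ Tm`. -/
def PerB (Tm : ℕ) (β : ℝ) : Prop := ∃ T : ℕ, 1 ≤ T ∧ T ≤ Tm ∧ ∀ n : ℕ, 1 ≤ n → rmd β (n + T) = rmd β n

/-- Lower bound `α A² - K A` for the number of the integer points `(b, c)` with `R (b/A) (c/A)`. -/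
def LB (R : ℝ → ℝ → Prop) (α : ℝ) : Prop :=
  ∃ K : ℝ, ∀ A : ℕ, 1 ≤ A → ∃ F : Finset (ℤ × ℤ), (∀ z ∈ F, R ((z.1 : ℝ) / A) ((z.2 : ℝ) / A)) ∧
    α * (A : ℝ) ^ 2 - K * A ≤ (F.card : ℝ)

/-- The trapezoid with the vertices `(X₁, L₁), (X₁, H₁), (X₂, L₂), (X₂, H₂)`, all divided by 65537 (without the right side);
`p = (X₁, L₁, H₁)`, `q = (X₂, L₂, H₂)`. -/
def Tr (p q : ℤ × ℤ × ℤ) (x y : ℝ) : Prop :=
  (p.1 : ℝ) ≤ 65537 * x ∧ 65537 * x < q.1 ∧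
  (p.2.1 : ℝ) * (q.1 - 65537 * x) + q.2.1 * (65537 * x - p.1) ≤ 65537 * y * (q.1 - p.1) ∧
  65537 * y * (q.1 - p.1) ≤ (p.2.2 : ℝ) * (q.1 - 65537 * x) + q.2.2 * (65537 * x - p.1)

/-- The union of the trapezoids of a chain. -/
def Ch : List (ℤ × ℤ × ℤ) → ℝ → ℝ → Prop
  | p :: q :: l, x, y => Tr p q x y ∨ Ch (q :: l) x y
  | _, _, _ => False

/-- `2 * 65537² *` area of a trapezoid. -/
def ar (p q : ℤ × ℤ × ℤ) : ℤ := (q.1 - p.1) * ((p.2.2 - p.2.1) + (q.2.2 - q.2.1))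

/-- `2 * 65537² *` area of a chain. -/
def arc : List (ℤ × ℤ × ℤ) → ℤ
  | p :: q :: l => ar p q + arc (q :: l)
  | _ => 0

/-- The first coordinates increase, the second coordinates are at most the third ones. -/
def OKc : List (ℤ × ℤ × ℤ) → Prop
  | p :: q :: l => p.1 < q.1 ∧ p.2.1 ≤ p.2.2 ∧ OKc (q :: l)
  | [p] => p.2.1 ≤ p.2.2
  | [] => True

/-! ## Block A: algebra -/

/-- **P6C** (short, 25 lines). Coefficients of `P6` (`compute_degree`, `simp [P6, coeff_X, ...]`, `monicity`). -/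
def P6C_stmt : Prop := ∀ A b c : ℤ, (P6 A b c).Monic ∧ (P6 A b c).natDegree = 6 ∧ (P6 A b c).coeff 5 = -A ∧
  (P6 A b c).coeff 4 = 3 - b ∧ (P6 A b c).coeff 3 = -c ∧ (P6 A b c).coeff 2 = 3 - b ∧
  (P6 A b c).coeff 1 = -A ∧ (P6 A b c).coeff 0 = 1

/-- **IRR** (medium, 130 lines; from P6C). Irreducibility. Proof. `T = X³ - A X² - b X - (c - 2A)` is monic of degree 3 without integer root, so irreducible over `ℤ`
(`Polynomial.Monic.irreducible_iff_roots_eq_zero_of_degree_le_three`) and over `ℚ` (`Polynomial.Monic.irreducible_iff_irreducible_map_fraction_map`), `T(u) = T(L) = 0`.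
So a rational polynomial of degree `≤ 2` which vanishes at `u` (or `L`) is 0, and a rational polynomial which vanishes at `L` vanishes at `u`.
Let `g_0 + g_1 Λ + ... + g_5 Λ^5 = 0` with rational `g_i`. Divide by `Λ²` and use `Λ^(-2) = L² - 1 - L Λ`, `Λ^(-1) = L - Λ`, `Λ² = L Λ - 1`,
`Λ³ = (L² - 1) Λ - L`: `α(L) + β(L) Λ = 0` with `α(t) = g_0 (t² - 1) + g_1 t + g_2 - g_4 - g_5 t`, `β(t) = -g_0 t - g_1 + g_3 + g_4 t + g_5 (t² - 1)`. Multiply by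
`α(L) + β(L) Λ⁻¹`: `H(L) = 0` for `H = α² + t α β + β²`, so `H(u) = 0`: `α(u)² + u α(u) β(u) + β(u)² = 0`, `|u| < 2`, so `α(u) = β(u) = 0`, so all the coefficients of
`α` and `β` vanish: `g_0 = 0`, `g_1 = g_5`, `g_2 = g_4 + g_0`, `g_5 = 0`, `g_4 = g_0`, `g_3 = g_1 + g_5`: all `g_i = 0`. So `minpoly ℤ Λ` has degree `≥ 6`; it divides the monic
`P6` (`P6(Λ) = Λ³ T(L) = 0`, `minpoly.isIntegrallyClosed_dvd`) of degree 6, so it is equal to it and `P6` is irreducible. -/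
def IRR_stmt : Prop := ∀ (A b c : ℤ) (u v L Λ : ℝ), Rt A b c u v L → |u| < 2 → |v| < 2 → 2 < L → 1 < Λ →
  Λ + Λ⁻¹ = L → NoInt A b c → Irreducible (P6 A b c)

/-- **FC2** (short-medium, 60 lines). The factorization. Proof. `Λ = (L + √(L² - 4))/2`; `Λ + Λ⁻¹ = L` as `Λ² - L Λ + 1 = 0`. `w 0 = Circle.exp (arccos (u/2))`, real part
`cos (arccos (u/2)) = u/2`, the same for `v`. `QQ w = (X² - u X + 1)(X² - v X + 1)` (`Fin.prod_univ_two`); expand, compare with `Rt` (all coefficients `C`, `linear_combination`). -/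
def FC2_stmt : Prop := ∀ (A b c : ℤ) (u v L : ℝ), Rt A b c u v L → |u| < 2 → |v| < 2 → 2 < L →
  ∃ (Λ : ℝ) (w : Fin 2 → Circle), 1 < Λ ∧ Λ + Λ⁻¹ = L ∧ Fac (P6 A b c) Λ w

/-! ## Block B: the greedy expansion -/

/-- **CE1** (medium, 90 lines). The remainders. Proof. Put `st' 0 = (0,0,0,0)`, `st' (n+1) = st n`; `s n = sv q1 q2 (st' n) (st' (n+1)).1` for all `n`, and `st'` is a shift
sequence. With `L = Λ + Λ⁻¹` and three consecutive states: if `st' n = (a, b, c, d)` and the next entries are `e, f, g` then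
`s (n+2) - L s (n+1) + s n = g + p1 f + p2 e + p3 a + p2 b + p1 c + d` is an integer (`n+2`: `g + q1 (f + a) + q2 e + b`; `n+1`: `f + q1 (e + b) + q2 a + c`; `n`: `e + q1 (a + c) + q2 b + d`); also
`s 1 - L s 0 = a_1 + p1`. Put `r 0 = 1`, `r (n+1) = s (n+1) - Λ⁻¹ s n`: `0 < r (n+1) < 1` (`Λ⁻¹ < s (n+1) ≤ 1`, `0 < s n ≤ 1`), `r (n+1) - Λ r n` is an integer, so by induction
`rmd Λ n = r n` (`rmd` is defined with the floor; `Int.floor_eq_iff`). -/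
def CE1_stmt : Prop := ∀ (Λ q1 q2 : ℝ) (p1 p2 p3 : ℤ) (st : ℕ → St), 1 < Λ → (p1 : ℝ) = q1 - (Λ + Λ⁻¹) →
  (p2 : ℝ) = q2 - (Λ + Λ⁻¹) * q1 + 1 → (p3 : ℝ) = 2 * q1 - (Λ + Λ⁻¹) * q2 → st 0 = ini →
  (∀ n : ℕ, Shift st n ∧ Λ⁻¹ < ss q1 q2 st (n + 1) ∧ ss q1 q2 st (n + 1) ≤ 1) →
  ∀ n : ℕ, rmd Λ (n + 1) = ss q1 q2 st (n + 1) - Λ⁻¹ * ss q1 q2 st n

/-- **CEL** (short-medium, 70 lines; from CE1). The criterion. Proof. `st' n = st (n % T)` satisfies the hypotheses of CE1: for `n % T + 1 < T` clear, for `n % T = T - 1` as `st T = ini = st 0`. `ss q1 q2 st' (n + T) = ss q1 q2 st' n`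
for `n ≥ 1` clear; for `n = 0`: `ss st' T = sv q1 q2 (st (T-1)) 1`, `Shift st (T-1)` and `st T = ini` give `st (T-1) = (0, 0, 0, d)`, so it is `1 + d`, in `(0, 1]`, so `d = 0` and it is `1`. So
`rmd Λ (n + 1 + T) = rmd Λ (n + 1)` for all `n`. -/
def CEL_stmt : Prop := ∀ (Λ q1 q2 : ℝ) (p1 p2 p3 : ℤ) (T : ℕ) (st : ℕ → St), 1 < Λ → (p1 : ℝ) = q1 - (Λ + Λ⁻¹) →
  (p2 : ℝ) = q2 - (Λ + Λ⁻¹) * q1 + 1 → (p3 : ℝ) = 2 * q1 - (Λ + Λ⁻¹) * q2 → 1 ≤ T → st 0 = ini → st T = ini →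
  (∀ n : ℕ, n < T → Shift st n ∧ Λ⁻¹ < ss q1 q2 st (n + 1) ∧ ss q1 q2 st (n + 1) ≤ 1) →
  ∀ n : ℕ, 1 ≤ n → rmd Λ (n + T) = rmd Λ n

/-- **STB** (short-medium, 70 lines). Stability. Proof. By induction all entries of `cd x y n` have modulus `≤ 17^n` (`|1 - ⌈z⌉| ≤ 1 + |z|`, `|z| ≤ 15 * 17^n`). If `Gd` holds with margin: `|sv q1 q2 - sv x y| ≤ (24/A) * 3 * 17^n ≤ η/2` for
`A ≥ 144 * 17^T/η`. If the coefficients vanish, `sv q1 q2 s a = a + s.2.2.2 = 1`. -/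
def STB_stmt : Prop := ∀ (η : ℝ) (T : ℕ), 0 < η → η ≤ 1 → ∃ A₀ : ℝ, ∀ A : ℝ, A₀ ≤ A → ∀ x y q1 q2 : ℝ, |x| ≤ 4 →
  |y| ≤ 6 → |x - q1| ≤ 24 / A → |y - q2| ≤ 24 / A → Cell η T x y →
  ∀ n : ℕ, n < T → η / 2 ≤ ss q1 q2 (cd x y) (n + 1) ∧ ss q1 q2 (cd x y) (n + 1) ≤ 1

/-- **LOC** (short-medium, 80 lines). Location of the roots. Proof. `A₀ = 9/η + 10`. `T(t) = t³ - A t² - b t - (c - 2A)`, `x = b/A`, `y = c/A`: `T(2) = 8 - A (2 + 2x + y) ≤ 8 - A η < 0`,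
`T(-2) = -8 - A (2 - 2x + y) < 0`, `T(-x/2) = -x³/8 + A (x²/4 + 2 - y) ≥ -8 + A η > 0`; `-x/2 ∈ [-2, 2]`, not `±2` as the signs differ. Intermediate value theorem: `u ∈ (-2, -x/2)`, `v ∈ (-x/2, 2)` with `T(u) = T(v) = 0`. `L = A - u - v > 2`.
`(T(u) - T(v))/(u - v) = 0`: `u² + u v + v² - A (u + v) - b = 0`, so `b = -(u v + L (u + v))`, and then `c` from `T(u) = 0`. -/
def LOC_stmt : Prop := ∀ η : ℝ, 0 < η → ∃ A₀ : ℝ, ∀ A b c : ℤ, A₀ ≤ (A : ℝ) → InW η ((b : ℝ) / A) ((c : ℝ) / A) →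
  ∃ u v L : ℝ, Rt A b c u v L ∧ |u| < 2 ∧ |v| < 2 ∧ 2 < L

/-- **GOD** (medium, 110 lines; from LOC FC2 IRR STB CEL P6C). Good points. Proof. `A₀` larger than the bounds of LOC, of STB for all `T ≤ Tm` (finite maximum), `2/η + 6` and 10. `u, v, L` from LOC, `Λ, w` from FC2, IRR, `ALL_SLM` (`SLM_stmt` with `k = 2`):
`IsSalem Λ`, `minpoly ℤ Λ = P6 A b c`. `q1 = -(u + v)`, `q2 = 2 + u v`, `L = A + q1`: `b/A - q1 = (q1² + 2 - q2)/A`, of modulus `≤ 20/A`; `c/A - q2 = q1 (q2 - 2)/A`, `≤ 16/A`. `|c/A| ≤ 6` (InW). STB; `Λ⁻¹ < η/2` as `Λ > L - 1 ≥ A - 5 > 2/η`.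
CEL with `st = cd (b/A) (c/A)` (`Shift` by definition of `nx`), `p1 = -A`, `p2 = 3 - b`, `p3 = -c`. `Λ < L ≤ A + 4`. -/
def GOD_stmt : Prop := ∀ (η : ℝ) (Tm : ℕ), 0 < η → η ≤ 1 → ∃ A₀ : ℕ, ∀ A b c : ℤ, (A₀ : ℤ) ≤ A →
  InW η ((b : ℝ) / A) ((c : ℝ) / A) → (∃ T : ℕ, T ≤ Tm ∧ Cell η T ((b : ℝ) / A) ((c : ℝ) / A)) → NoInt A b c →
  ∃ Λ : ℝ, IsSalem Λ ∧ Λ ≤ A + 4 ∧ minpoly ℤ Λ = P6 A b c ∧ PerB Tm Λ

/-! ## Block C: counting, lower bound -/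

/-- **TRL** (medium, 130 lines). Integer points of a trapezoid. Proof. `N = 65537`, `p = (X₁, L₁, H₁)`, `q = (X₂, L₂, H₂)`, `W = X₂ - X₁ > 0`, `D₁ = H₁ - L₁`, `D₂ = H₂ - L₂`. `b` runs over the integers with `X₁ A ≤ N b < X₂ A`
(an interval of `n` integers, `n ≥ W A/N - 1`, `n ≤ W A/N + 1`); for such `b` the allowed `c` are the integers of an interval of length `δ(b) = (D₁ (X₂ A - N b) + D₂ (N b - X₁ A))/(N W) ≥ 0`, at least `δ(b) - 1` of them (`Int.card_Icc`, floor and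
ceiling). The numbers `X₂ A - N b` are `e, e + N, ..., e + (n-1) N` with `e > 0`, so their sum is `≥ N n (n-1)/2`, and the same for `N b - X₁ A` (`e ≥ 0`). So the number is `≥ (D₁ + D₂) n (n-1)/(2W) - n`, and with `m = W A/N`: `n (n-1) ≥ m² - 3 m`
(if `m ≤ 3` clear; otherwise `n ≥ m - 1 > 2`), so `≥ (D₁ + D₂) W A²/(2N²) - (3/2)(D₁ + D₂) A/N - W A/N - 1`. `F` = `Finset.sigma`/`biUnion` of the columns, or induction on the number of columns. -/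
def TRL_stmt : Prop := ∀ p q : ℤ × ℤ × ℤ, p.1 < q.1 → p.2.1 ≤ p.2.2 → q.2.1 ≤ q.2.2 →
  LB (Tr p q) ((ar p q : ℝ) / (2 * 65537 ^ 2))

/-- **CHL** (short, 40 lines; from TRL). Chains. Proof. Induction; `Tr p q x y` has `65537 x < q.1`, `Ch (q :: l) x y` has `q.1 ≤ 65537 x` (as the first coordinates increase): disjoint sets `F`. -/
def CHL_stmt : Prop := ∀ l : List (ℤ × ℤ × ℤ), OKc l → LB (Ch l) ((arc l : ℝ) / (2 * 65537 ^ 2))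

/-- **DJU** (short, 40 lines). Disjoint unions. Proof. Induction on the list; `K` is the sum of the `K`. -/
def DJU_stmt : Prop := ∀ Rs : List ((ℝ → ℝ → Prop) × ℝ), (∀ r ∈ Rs, LB r.1 r.2) →
  Rs.Pairwise (fun r r' => ∀ x y : ℝ, ¬(r.1 x y ∧ r'.1 x y)) →
  LB (fun x y => ∃ r ∈ Rs, r.1 x y) (Rs.map Prod.snd).sum

open Classical in
/-- **EXC** (short-medium, 60 lines). Exceptional points. Proof. Let `z = (b, c)` and `r` an integer root of `T(t) = (t - u)(t - v)(t - L)`: `r = u` or `v`, so `r ∈ {-1, 0, 1}`, or `r = L = A - u - v`, so `r ∈ [A - 3, A + 3]`. `c = r³ - A r² - b r + 2 A`. So `z` is in the image of the set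
of the pairs `(r, b)`, `r` in a set of at most 10 integers, `b ∈ [-4A, 4A]`: at most `10 (8A + 1) ≤ 108 A`. -/
def EXC_stmt : Prop := ∀ (A : ℕ), 1 ≤ A → ∀ F : Finset (ℤ × ℤ),
  (∀ z ∈ F, |z.1| ≤ 4 * A ∧ ∃ u v L : ℝ, Rt A z.1 z.2 u v L ∧ |u| < 2 ∧ |v| < 2) →
  ((F.filter (fun z => ¬ NoInt A z.1 z.2)).card : ℝ) ≤ 108 * A

/-- **SUL** (short, 40 lines). Proof. `∑_(A ≤ M) A² ≥ M³/3`, `∑_(A ≤ M) A ≤ M²` and the missing terms `A < A₀` are at most a constant (`M ≥ 1`; for `M = 0` both sides are `≤ 0` respectively clear). -/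
def SUL_stmt : Prop := ∀ (α K : ℝ) (A₀ : ℕ), 0 ≤ α → ∃ K' : ℝ, ∀ M : ℕ, 1 ≤ M →
  α / 3 * (M : ℝ) ^ 3 - K' * (M : ℝ) ^ 2 ≤ ∑ A ∈ Finset.Icc A₀ M, (α * (A : ℝ) ^ 2 - K * A)

/-- **LW6** (medium, 120 lines; from GOD LOC EXC SUL P6C). Lower bound. Proof. `K, F_A` from the hypothesis, `A₀` from GOD and LOC (and `≥ 1`). For `A ≥ A₀` remove from `F_A` the points with an integer root: at most `108 A` (EXC; `|b| ≤ 4A` by InW, `u, v, L` by LOC). For the others let `Λ(A, b, c)` be the number of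
GOD; it is in `SS 6 (A + 4)` (`P6C`: degree 6), and `(A, b, c) ↦ Λ` is injective since `minpoly ℤ Λ = P6 A b c` determines `A, b, c` (P6C). `M = ⌊X⌋₊ - 4` if `X ≥ 5` (then `M ≥ X - 5 ≥ 0`), `S` = the image of the triples with `A₀ ≤ A ≤ M`; number
`≥ ∑ (α A² - (K + 108) A)`, SUL, `M³ ≥ X³ - 15 X²`, `M ≤ X`. For `X < 6` take `S = ∅` and `K'` large (`1 ≤ X`). -/
def LW6_stmt : Prop := ∀ (α η : ℝ) (Tm : ℕ), 0 ≤ α → 0 < η → η ≤ 1 →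
  LB (fun x y => InW η x y ∧ ∃ T : ℕ, T ≤ Tm ∧ Cell η T x y) α →
  ∃ K : ℝ, ∀ X : ℝ, 1 ≤ X → ∃ S : Finset ℝ, (∀ β ∈ S, β ∈ SS 6 X ∧ PerB Tm β) ∧
    α / 3 * X ^ 3 - K * X ^ 2 ≤ (S.card : ℝ)

/-! ## Block D: counting, upper bound -/

/-- **EXT** (short-medium, 60 lines). Proof. `ALL_REC`: `k = 2` (degree), `w : Fin 2 → Circle`, `Fac (minpoly ℤ β) β w`. `u = 2 (w 0).re`, `v = 2 (w 1).re`. Real coefficients of `(X - β)(X - β⁻¹)(X² - u X + 1)(X² - v X + 1)`. `A = -coeff 5`, `b = 3 - coeff 4`, `c = -coeff 3` of the minimal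
polynomial; equality of polynomials by coefficients (`Polynomial.map_injective`, or `ext` with `natDegree = 6`). -/
def EXT_stmt : Prop := ∀ β : ℝ, IsSalem β → (minpoly ℤ β).natDegree = 6 → ∃ (A b c : ℤ) (u v : ℝ), |u| ≤ 2 ∧ |v| ≤ 2 ∧
  Rt A b c u v (β + β⁻¹) ∧ minpoly ℤ β = P6 A b c

/-- **INJ** (short, 15 lines). Proof. `β'` is a root of `minpoly ℤ β`; if it is not `β` then its modulus is `≤ 1` by the definition of a Salem number. -/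
def INJ_stmt : Prop := ∀ β β' : ℝ, IsSalem β → IsSalem β' → minpoly ℤ β = minpoly ℤ β' → β = β'

/-- **BDC** (short, 40 lines). Proof. `|b| ≤ 4 + 4 L`, `L = A - u - v ≤ A + 4`. `(2-u)(2-v)(2-L) ≤ 0` is `8 - 2A - 2b - c ≤ 0`; `(-2-u)(-2-v)(-2-L) ≤ 0` is `-8 - 2A + 2b - c ≤ 0`; `c = u³ - A u² - b u + 2A ≤ 8 + 2A + b²/(4A)` as
`A u² + b u + b²/(4A) = A (u + b/(2A))² ≥ 0`. -/
def BDC_stmt : Prop := ∀ (A b c : ℤ) (u v L : ℝ), |u| ≤ 2 → |v| ≤ 2 → 2 ≤ L → 1 ≤ A → Rt A b c u v L →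
  |b| ≤ 4 * A + 20 ∧ 8 - 2 * A - 2 * b ≤ c ∧ -8 - 2 * A + 2 * b ≤ c ∧
  (c : ℝ) ≤ 8 + 2 * A + (b : ℝ) ^ 2 / (4 * A)

/-- **BCN** (medium, 90 lines). Proof. For a given `b` the number of `c` is at most `8 + 2A + b²/(4A) - (2|b| - 2A - 8) + 1 = (4A - |b|)²/(4A) + 17` (`Int.card_Icc`, floor). Sum over `|b| ≤ 4A + 20`: `∑ (4A - |b|)² ≤ 2 ∑_(k ≤ 4A) k² + 2 * 20 * 400`,
`2 ∑_(k ≤ 4A) k² = 4A (4A+1)(8A+1)/3`, so the sum of the first terms is `≤ (4A+1)(8A+1)/3 + 4000/A ≤ (32/3) A² + 5000 A`; the `17` give `17 (8A + 41)`. -/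
def BCN_stmt : Prop := ∃ K : ℝ, ∀ A : ℕ, 1 ≤ A → ∀ F : Finset (ℤ × ℤ),
  (∀ z ∈ F, |z.1| ≤ 4 * A + 20 ∧ 8 - 2 * (A : ℤ) - 2 * z.1 ≤ z.2 ∧ -8 - 2 * (A : ℤ) + 2 * z.1 ≤ z.2 ∧
    (z.2 : ℝ) ≤ 8 + 2 * A + (z.1 : ℝ) ^ 2 / (4 * A)) → (F.card : ℝ) ≤ 32 / 3 * (A : ℝ) ^ 2 + K * A

/-- **SUU** (short, 20 lines). Proof. `∑_(A ≤ M) A² = M (M+1)(2M+1)/6 ≤ M³/3 + M²`. -/
def SUU_stmt : Prop := ∀ K : ℝ, ∃ K' : ℝ, ∀ M : ℕ,
  ∑ A ∈ Finset.Icc 1 M, (32 / 3 * (A : ℝ) ^ 2 + K * A) ≤ 32 / 9 * (M : ℝ) ^ 3 + K' * (M : ℝ) ^ 2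

/-- **UP6** (medium, 120 lines; from EXT INJ BDC BCN SUU). Proof. The `β ∈ SS 6 X` with `β ≤ 10` are at most a constant (`UPB` of PSA, `k = 2`, `X = 10`; finiteness also from UPB). For `β > 10`: `(A, b, c)` from EXT, `A = L + u + v > 6`, `A ≤ X + 1 + 4`, injective (INJ); BDC; for each `A ≤ M = ⌊X⌋₊ + 5` at most
`(32/3) A² + K A` pairs (BCN, `F` = the image), SUU, `M ≤ X + 5`, `1 ≤ X`. -/
def UP6_stmt : Prop := ∃ K : ℝ, ∀ X : ℝ, 1 ≤ X → (SS 6 X).Finite ∧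
  ((SS 6 X).ncard : ℝ) ≤ 32 / 9 * X ^ 3 + K * X ^ 2

/-! ## Block E: geometry of the certificate -/

/-- **CVX** (short, 40 lines). Proof. `W = q.1 - p.1 > 0`, `s = (q.1 - 65537 x)/W`, `t = (65537 x - p.1)/W`, `s, t ≥ 0`, `s + t = 1`; `65537 y` is between `s L₁ + t L₂` and `s H₁ + t H₂`. If `γ ≥ 0`: `65537 (α + β x + γ y) ≥ s (65537 α + β X₁ + γ L₁) + t (65537 α + β X₂ + γ L₂) ≥ 0`; if
`γ < 0` the same with `H`. -/
def CVX_stmt : Prop := ∀ (p q : ℤ × ℤ × ℤ) (x y α β γ : ℝ), p.1 < q.1 → Tr p q x y →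
  0 ≤ 65537 * α + β * p.1 + γ * p.2.1 → 0 ≤ 65537 * α + β * p.1 + γ * p.2.2 →
  0 ≤ 65537 * α + β * q.1 + γ * q.2.1 → 0 ≤ 65537 * α + β * q.1 + γ * q.2.2 → 0 ≤ α + β * x + γ * y

/-- **PAR** (short, 40 lines). Proof. With `s, t` as in CVX, `N = 65537`: `N y ≤ s H₁ + t H₂`, `16 N H_i ≤ 32 N² + 4 X_i² - W² - 16 N`, `s X₁² + t X₂² = (N x)² + s t W²`, `s t ≤ 1/4`: `16 N (N y) ≤ 32 N² + 4 (N x)² + 4 s t W² - W² - 16 N ≤ 32 N² + 4 N² x² - 16 N`. -/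
def PAR_stmt : Prop := ∀ (p q : ℤ × ℤ × ℤ) (x y : ℝ), p.1 < q.1 → Tr p q x y →
  16 * 65537 * p.2.2 + (q.1 - p.1) ^ 2 + 16 * 65537 ≤ 32 * 65537 ^ 2 + 4 * p.1 ^ 2 →
  16 * 65537 * q.2.2 + (q.1 - p.1) ^ 2 + 16 * 65537 ≤ 32 * 65537 ^ 2 + 4 * q.1 ^ 2 →
  y ≤ 2 + x ^ 2 / 4 - 1 / 65537

/-! ## The theorem -/

/-- **CRT** (helper75; the certificate). -/
def CRT_stmt (α : ℝ) (Tm : ℕ) : Prop :=
  LB (fun x y => InW (1 / 65537) x y ∧ ∃ T : ℕ, T ≤ Tm ∧ Cell (1 / 65537) T x y) α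

/-- The final count. -/
theorem FINAL_of (α δ : ℝ) (Tm : ℕ) (hα : 0 ≤ α) (hδ : 0 ≤ δ) (hαδ : δ * (32 / 9) < α / 3) (h1 : LW6_stmt) (h2 : UP6_stmt)
    (h3 : CRT_stmt α Tm) :
    ∃ X₀ : ℝ, ∀ X : ℝ, X₀ ≤ X → (SS 6 X).Finite ∧
      δ * ((SS 6 X).ncard : ℝ) ≤ ((SS 6 X ∩ {β | PerB Tm β}).ncard : ℝ) := by
  obtain ⟨K₁, H1⟩ := h1 α (1 / 65537) Tm hα (by norm_num) (by norm_num) h3
  obtain ⟨K₂, H2⟩ := h2
  set κ := α / 3 - δ * (32 / 9) with hκ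
  have hκ0 : 0 < κ := by linarith
  refine ⟨max 1 ((|K₁| + δ * |K₂|) / κ), fun X hX => ?_⟩
  have hX1 : 1 ≤ X := (le_max_left _ _).trans hX
  have hX2 : (|K₁| + δ * |K₂|) / κ ≤ X := (le_max_right _ _).trans hX
  obtain ⟨S, hS, hSc⟩ := H1 X hX1
  obtain ⟨hfin, hup⟩ := H2 X hX1
  refine ⟨hfin, ?_⟩
  have hsub : (S : Set ℝ) ⊆ SS 6 X ∩ {β | PerB Tm β} := fun β hβ => hS β hβ
  have h4 : (S.card : ℝ) ≤ ((SS 6 X ∩ {β | PerB Tm β}).ncard : ℝ) := by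
    have h5 := Set.ncard_le_ncard hsub (hfin.subset Set.inter_subset_left)
    rw [Set.ncard_coe_finset] at h5
    exact_mod_cast h5
  refine le_trans ?_ h4
  refine le_trans ?_ hSc
  have h6 : δ * ((SS 6 X).ncard : ℝ) ≤ δ * (32 / 9 * X ^ 3 + K₂ * X ^ 2) := mul_le_mul_of_nonneg_left hup hδ
  have h7 : |K₁| + δ * |K₂| ≤ κ * X := by
    rw [div_le_iff₀ hκ0] at hX2
    linarith
  have h8 : K₁ ≤ |K₁| := le_abs_self _
  have h9 : K₂ ≤ |K₂| := le_abs_self _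
  have h10 : δ * K₂ ≤ δ * |K₂| := mul_le_mul_of_nonneg_left h9 hδ
  have hX2pos : 0 < X ^ 2 := by positivity
  have h11 : (K₁ + δ * K₂) * X ^ 2 ≤ κ * X * X ^ 2 := mul_le_mul_of_nonneg_right (by linarith) hX2pos.le
  have h12 : κ * X * X ^ 2 = α / 3 * X ^ 3 - δ * (32 / 9) * X ^ 3 := by rw [hκ]; ring
  nlinarith [h6, h11, h12]

end Pool.Agent.S6D
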